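import Pool.Agent.Helper44.T5b.NearR
import Pool.Agent.Helper27.T5b.Range
import Pool.Agent.Helper97.ET.Cnt

/-!
# T5b: the label block for late states
-/

set_option autoImplicit false

namespace Pool.Agent.Helper44.T5b

open Finset
open Pool.Agent.Helper5.ET hiding Key Mk AA Rp keysOf el ext
open Pool.Agent.Helper27.T4
open Pool.Agent.Helper27.T5b hiding FF_pos dvd_cs cs_lt QQ_eq_NN c0_lt Jn_pos
open Pool.Agent.Helper37.T5b
open Pool.Agent.Helper30.T5b hiding pz_prime pz_inj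
open Pool.Agent.Helper22.HW Pool.Agent.Helper57.T5
open Pool.Agent.Helper84.T5b Pool.Agent.Helper44.T5

/-- the position of the main digits tends to infinity -/
theorem exists_mL_ge (m k y0 : ℕ) : ∃ l0, ∀ l ≥ l0, y0 ≤ mL m k l := by
  refine ⟨pos (ins m k) y0 + 1, fun l hl => ?_⟩
  have h : y0 < l1 (ins m k) l := lt_l1_iff.2 (by omega)
  exact h.le

/-- conditions for late states -/
theorem exists_conds {m : ℕ} (hm : 0 < m) (k : ℕ) : ∃ l0, ∀ l ≥ l0, bb 0 ≤ mL m k l ∧
    Dbl m k l ∧ SS m (sL m k l + 1) ≤ mL m k l ∧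
    ∀ s, ∀ f : Fin 3, 0 < aJ m k s l (Sum.inl f) := by
  obtain ⟨l1', h1⟩ := exists_dbl hm k
  obtain ⟨y0, hy0⟩ := Pool.Agent.Helper97.ET.cnt_ge
  obtain ⟨l2', h2⟩ := exists_mL_ge m k (y0 + 1 + bb (kt m k) + bb 0)
  refine ⟨l1' + l2', fun l hl => ?_⟩
  have h3 := h2 l (by omega)
  have hb0 : bb 0 ≤ mL m k l := by omega
  refine ⟨hb0, (h1 l (by omega)).1, ?_, ?_⟩
  · have h4 : kt m k ≤ era (mL m k l) := by
      by_contra hc
      push Not at hc
      have h5 := (era_spec _ hb0).2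
      have h6 : bb (era (mL m k l) + 1) ≤ bb (kt m k) := bb_strictMono.monotone hc
      omega
    exact SS_sv_succ_le' hm hb0 h4
  · intro s f
    have h4 : aJ m k s l (Sum.inl f) = cnt f (mL m k l) := by
      show ct (ins m k) own (ex m k) (Sum.inl f) l = _
      rw [ct_main]
      rfl
    rw [h4]
    have h5 := (hy0 (mL m k l) (by omega) f).1
    by_contra hc
    have h6 : cnt f (mL m k l) = 0 := by omega
    rw [h6] at h5
    have h7 : (0 : ℝ) < ((mL m k l : ℕ) : ℝ) := by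
      exact_mod_cast (by omega : 0 < mL m k l)
    rw [Nat.cast_zero] at h5
    linarith

/-- states with a common front are close (main digits) -/
theorem close_of_common {m k l l' u : ℕ} (hm : 0 < m) (hl : l' ≤ l)
    (hs : sL m k l' = sL m k l) (hS : SS m (sL m k l' + 1) ≤ mL m k l') (hu : u ≤ sL m k l)
    (hfr : ez m u l' = ez m u l) : 60 * (mL m k l - mL m k l') ≤ mL m k l := by
  have h1 := dist_of_common hm hl hfr
  have h2 : mL m k l - mL m k l' ≤ l - l' := l1_sub_le' _ _ _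
  have h3 := PZ_mul hm u
  have h4 : SS m u ≤ SS m (sL m k l' + 1) := SS_mono m (by omega)
  have h5 : mL m k l' ≤ mL m k l := l1_mono _ hl
  omega

/-- **the label block for late states** -/
theorem near_R_late {m : ℕ} (hm : 0 < m) (k : ℕ) : ∃ l0, ∀ l l' t, l0 ≤ l' → l' ≤ l →
    sL m k l' = sL m k l → t ≤ rL m k l' → 1 ≤ t → t ≤ rL m k l →
    ef m k l' t = ef m k l t → ∀ (w : Key → ℕ) (R n : ℕ),
    (∀ θ ∈ Theta (pJ k (sL m k l)) (dJ m k l l' t), ∀ γ N Qi : ℕ,
      LL (QQ m k (sL m k l)) t * Qi ≡ 1 [MOD DJ m k l l' t] → ∀ κ₂ < 4,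
      cN (Zw m k l t w) (Zw m k l' t w) (IJ m k l l')
        (Jn m k (sL m k l) l' * LL (QQ m k (sL m k l)) t) (DJ m k l l' t)
        (fun i => Qi * (clJ m k l l' t θ i + γ)) κ₂
        (Jn m k (sL m k l) l' * LL (QQ m k (sL m k l)) t * N) ≤ R) →
    Rp m k l l' w n ≤ CJ k (sL m k l) *
      ((CJ k (sL m k l) * ∏ u ∈ range t, CS k (sL m k l) u) * (4 * R)) := by
  obtain ⟨l0, h⟩ := exists_conds hm k
  refine ⟨l0, fun l l' t hl' hl hs hb ht1 ht hfr w R n hR => ?_⟩
  obtain ⟨a1, a2, a3, a4⟩ := h l' hl'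
  obtain ⟨_, b2, _, _⟩ := h l (hl'.trans hl)
  have hfr' : ez m (sL m k l - t) l' = ez m (sL m k l - t) l := by
    have h1 : ez m (sL m k l' - t) l' = ez m (sL m k l - t) l := hfr
    rw [hs] at h1
    exact h1
  refine near_R hm a1 hl hs hb ht1 ht hfr (close_of_common hm hl hs a3 (Nat.sub_le _ _) hfr')
    (fun f => a4 _ f) (fun u hu => b2 u (by omega)) (fun u hu => ?_) w n hR
  have h1 := a2 u (by omega)
  rw [hs] at h1
  exact h1

end Pool.Agent.Helper44.T5b
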