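import Pool.Agent.Helper44.T5b.NearLate

/-!
# T5b: the labels of the joint level (LAB and INJ)

For `l' ≤ l` with the same number of split levels and close main positions, the pairs of joint
vectors whose codes have a given sum modulo the digits below `z ≤ ef l' 0` are at most
`CJ * ∏ p ^ ((a + a' - 2 e) / 2)`; here `a`, `a'`, `e` are the numbers of digits below `l`, `l'`, `z`.
For `z = l'` this is LAB, for `z = l` (if `l ≤ ef l' 0`) this is INJ.
-/

set_option autoImplicit false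

namespace Pool.Agent.Helper44.T5b

open Finset
open Pool.Agent.Helper5.ET hiding Key Mk AA Rp keysOf el ext
open Pool.Agent.Helper27.T4
open Pool.Agent.Helper27.T5b hiding FF_pos dvd_cs cs_lt QQ_eq_NN c0_lt Jn_pos
open Pool.Agent.Helper37.T5b
open Pool.Agent.Helper30.T5b hiding pz_prime pz_inj
open Pool.Agent.Helper22.HW Pool.Agent.Helper57.T5
open Pool.Agent.Helper84.T5b Pool.Agent.Helper44.T5

/-- the quotient of the product of two coordinates, general exponent -/
theorem quot_lt' {p a b e x y : ℕ} (hp : 1 < p)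
    (hx : (a = 0 ∧ x = 1) ∨ x ^ 2 < p ^ a) (hy : (b = 0 ∧ y = 1) ∨ y ^ 2 < p ^ b) :
    (x * y) / p ^ (e + 1) < p ^ ((a + b - 2 * e) / 2) := by
  have h1 : x ^ 2 ≤ p ^ a := by
    rcases hx with ⟨h, rfl⟩ | h
    · rw [h]; simp
    · exact h.le
  have h2 : y ^ 2 ≤ p ^ b := by
    rcases hy with ⟨h, rfl⟩ | h
    · rw [h]; simp
    · exact h.le
  have h3 : (x * y) ^ 2 < (p ^ (e + 1 + (a + b - 2 * e) / 2)) ^ 2 := by
    calc (x * y) ^ 2 = x ^ 2 * y ^ 2 := by ring
      _ ≤ p ^ a * p ^ b := Nat.mul_le_mul h1 h2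
      _ = p ^ (a + b) := (pow_add _ _ _).symm
      _ < p ^ ((e + 1 + (a + b - 2 * e) / 2) * 2) := Nat.pow_lt_pow_right hp (by omega)
      _ = _ := pow_mul _ _ _
  have h4 := lt_of_pow_lt_pow_left₀ 2 (Nat.zero_le _) h3
  rw [pow_add] at h4
  exact Nat.div_lt_of_lt_mul h4

/-- the number of labels modulo the digits below `z` -/
noncomputable def LJ (m k l l' z : ℕ) : ℕ := ∏ i, pJ k (sL m k l) i ^
  ((aJ m k (sL m k l) l i + aJ m k (sL m k l) l' i - 2 * aJ m k (sL m k l) z i) / 2)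

open Classical in
/-- **labels modulo the digits below `z`** -/
theorem lab_z {m k l l' z : ℕ} (hm : 0 < m) (h0 : bb 0 ≤ mL m k l') (hl : l' ≤ l)
    (hs : sL m k l' = sL m k l) (hc : 60 * (mL m k l - mL m k l') ≤ mL m k l)
    (hz : z ≤ ef m k l' 0) (w : Key → ℕ) (n : ℕ) :
    ((XJ m k l ×ˢ XJ m k l').filter
      (fun q => c0 m k l w q.1 + c0 m k l' w q.2 ≡ n [MOD Jn m k (sL m k l) z])).card ≤
      CJ k (sL m k l) * LJ m k l l' z := by
  have e1 : XJ m k l' = XJG m k (sL m k l) l' := by rw [XJ_eq, hs]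
  have e2 : c0 m k l' w = c0G m k (sL m k l) (ef m k l' 0) l' w := by
    funext x
    rw [c0_eq, hs]
  rw [e1, e2]
  have hz' : z ≤ ef m k l 0 := by
    refine hz.trans ?_
    have h1 : ef m k l' 0 = ez m (sL m k l) l' := by
      show ez m (sL m k l' - 0) l' = _
      rw [hs, Nat.sub_zero]
    have h2 : ef m k l 0 = ez m (sL m k l) l := by
      show ez m (sL m k l - 0) l = _
      rw [Nat.sub_zero]
    rw [h1, h2]
    exact ez_mono m _ hl
  set p := pJ k (sL m k l) with hp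
  set e := aJ m k (sL m k l) z with he
  set S0 := (XJ m k l ×ˢ XJG m k (sL m k l) l').filter
    (fun q => c0 m k l w q.1 + c0G m k (sL m k l) (ef m k l' 0) l' w q.2 ≡ n
      [MOD Jn m k (sL m k l) z]) with hS0
  have h := code_pairs_mod (pJ_prime k (sL m k l)) (pJ_ne_two k _) e (rkJ m k l)
    (fun i x => ((w (Key.J l i (maskJ (preJ m k l i) x)) : ℕ) : ZMod (p i ^ e i)))
    (fun i x => ((w (Key.J l' i (maskJ (preJ m k l' i) x)) : ℕ) : ZMod (p i ^ e i)))
    (fun i x y hxy => by rw [maskJ_congr (fun g hg => hxy g (rkJ_pre hg))])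
    (fun i x y hxy => by rw [maskJ_congr (fun g hg => hxy g (rkJ_pre' h0 hl hc hg))])
    (fun i => ((n : ℕ) : ZMod (p i ^ e i)))
    (fun i => range (p i ^ ((aJ m k (sL m k l) l i + aJ m k (sL m k l) l' i - 2 * e i) / 2)))
    S0 (by
      intro q hq i
      rw [hS0, mem_filter, mem_product] at hq
      have h1 := XJG_spec (m := m) (k := k) (l := l) hq.1.1 i
      have h2 := XJG_spec hq.1.2 i
      refine ⟨h1.1, h2.1, h1.2.1, h2.2.1, mem_range.2
        (quot_lt' (pJ_prime k _ i).one_lt h1.2.2 h2.2.2), ?_⟩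
      have h3 : ((c0 m k l w q.1 : ℕ) : ZMod (p i ^ e i)) = Lg (p i) (e i) (q.1 i) +
          ((w (Key.J l i (maskJ (preJ m k l i) q.1)) : ℕ) : ZMod (p i ^ e i)) := by
        rw [c0_eq]
        exact c0G_cast_low m k _ _ l w _ i (aJ_mono m k _ i hz') h1.2.1
      have h4 : ((c0G m k (sL m k l) (ef m k l' 0) l' w q.2 : ℕ) : ZMod (p i ^ e i)) =
          Lg (p i) (e i) (q.2 i) +
          ((w (Key.J l' i (maskJ (preJ m k l' i) q.2)) : ℕ) : ZMod (p i ^ e i)) :=
        c0G_cast_low m k _ _ l' w _ i (aJ_mono m k _ i hz) h2.2.1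
      rw [← h3, ← h4, ← Nat.cast_add]
      exact (ZMod.natCast_eq_natCast_iff _ _ _).2 (hq.2.of_dvd (pow_dvd_NN p e i)))
  refine h.trans (le_of_eq ?_)
  unfold CJ LJ
  simp only [card_range]
  rw [← Finset.prod_mul_distrib]
  exact Finset.prod_congr rfl (fun i _ => (mul_assoc _ _ _).symm)

open Classical in
/-- **LAB** -/
theorem lab {m k l l' : ℕ} (hm : 0 < m) (h0 : bb 0 ≤ mL m k l') (hl : l' ≤ l)
    (hs : sL m k l' = sL m k l) (hc : 60 * (mL m k l - mL m k l') ≤ mL m k l)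
    (w : Key → ℕ) (n : ℕ) :
    ((XJ m k l ×ˢ XJ m k l').filter
      (fun q => c0 m k l w q.1 + c0 m k l' w q.2 ≡ n [MOD Jn m k (sL m k l) l'])).card ≤
      CJ k (sL m k l) * IJ m k l l' := by
  refine (lab_z hm h0 hl hs hc (lt_ez hm _ l').le w n).trans (le_of_eq ?_)
  unfold LJ IJ uJ
  congr 1
  refine Finset.prod_congr rfl (fun i _ => ?_)
  congr 1
  omega

open Classical in
/-- **INJ**: below the joint front of the lower state the sum of the two joint codes determines the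
joint vectors up to a constant number -/
theorem inj_mod {m k l l' : ℕ} (hm : 0 < m) (h0 : bb 0 ≤ mL m k l') (hl : l' ≤ l)
    (hs : sL m k l' = sL m k l) (hc : 60 * (mL m k l - mL m k l') ≤ mL m k l)
    (hf : l ≤ ef m k l' 0) (w : Key → ℕ) (n : ℕ) :
    ((XJ m k l ×ˢ XJ m k l').filter
      (fun q => c0 m k l w q.1 + c0 m k l' w q.2 ≡ n [MOD Jn m k (sL m k l) l])).card ≤
      CJ k (sL m k l) := by
  refine (lab_z hm h0 hl hs hc hf w n).trans (le_of_eq ?_)
  have h1 : LJ m k l l' l = 1 := by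
    unfold LJ
    refine Finset.prod_eq_one (fun i _ => ?_)
    have h2 := aJ_mono m k (sL m k l) i hl
    have h3 : (aJ m k (sL m k l) l i + aJ m k (sL m k l) l' i - 2 * aJ m k (sL m k l) l i) / 2 = 0 := by
      omega
    rw [h3, pow_zero]
  rw [h1, mul_one]

open Classical in
/-- INJ for the sum itself -/
theorem inj_sum {m k l l' : ℕ} (hm : 0 < m) (h0 : bb 0 ≤ mL m k l') (hl : l' ≤ l)
    (hs : sL m k l' = sL m k l) (hc : 60 * (mL m k l - mL m k l') ≤ mL m k l)
    (hf : l ≤ ef m k l' 0) (w : Key → ℕ) (T : ℕ) :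
    ((XJ m k l ×ˢ XJ m k l').filter
      (fun q => c0 m k l w q.1 + c0 m k l' w q.2 = T)).card ≤ CJ k (sL m k l) := by
  refine le_trans (card_le_card ?_) (inj_mod hm h0 hl hs hc hf w T)
  intro q hq
  rw [mem_filter] at hq ⊢
  exact ⟨hq.1, hq.2 ▸ Nat.ModEq.refl _⟩

end Pool.Agent.Helper44.T5b
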