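import Pool.Agent.Helper44.T5.Enc

/-!
# Labels of the joint level, general ranges

The same as `Helper44.T5.joint_labels`, but only the bound for the quotients is used, so that
families without digits (coordinate `1`) are allowed.
-/

set_option autoImplicit false

namespace Pool.Agent.Helper44.T5b

open Finset Pool.Agent.Helper27.T4 Pool.Agent.Helper3.T4 Pool.Agent.Helper44.T5

variable {ι : Type*} [Fintype ι] [DecidableEq ι] {p : ι → ℕ}

/-- **The label form of the joint level.** -/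
theorem joint_labels_u (hp : ∀ i, (p i).Prime) (hp2 : ∀ i, p i ≠ 2) (hinj : Function.Injective p)
    (b d u : ι → ℕ) (X X' : Finset (ι → ℕ)) (C C' : (ι → ℕ) → ℕ)
    (σ σ' : ∀ i, (ι → ℕ) → ZMod (p i ^ (b i + d i)))
    (hX : ∀ x ∈ X, ∀ i, (x i).Coprime (p i)) (hX' : ∀ x ∈ X', ∀ i, (x i).Coprime (p i))
    (hlab : ∀ x ∈ X, ∀ x' ∈ X', ∀ i, (x i * x' i) / p i ^ (b i + 1) < p i ^ u i)
    (hC : ∀ x ∈ X, ∀ i, ((C x : ℕ) : ZMod (p i ^ (b i + d i))) =
      Lg (p i) (b i + d i) (x i) + σ i x)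
    (hC' : ∀ x ∈ X', ∀ i, ((C' x : ℕ) : ZMod (p i ^ (b i + d i))) =
      Lg (p i) (b i + d i) (x i) + σ' i x)
    (B : Finset ι)
    (hB : ∀ i, d i ≠ 0 → ∀ x y, (∀ j ∈ B, x j = y j) → σ i x = σ i y)
    (hB' : ∀ i, d i ≠ 0 → ∀ x y, (∀ j ∈ B, x j = y j) → σ' i x = σ' i y)
    (n : ℕ) (κ : ι → ℕ × ℕ) :
    ∃ θ ∈ Theta p d, ∀ x ∈ X, ∀ x' ∈ X', C x + C' x' ≡ n [MOD NN p b] →
      PhiB p b d B (x, x') = κ →
      labJ p b u (x, x') < ∏ i, p i ^ u i ∧
      (C x + C' x') / NN p b ≡ cln hp hinj b d u θ (labJ p b u (x, x')) [MOD NN p d] := by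
  classical
  by_cases hex : ∃ x₀ ∈ X, ∃ x₀' ∈ X', C x₀ + C' x₀' ≡ n [MOD NN p b] ∧
      PhiB p b d B (x₀, x₀') = κ
  · obtain ⟨x₀, h₀, x₀', h₀', hn₀, hκ⟩ := hex
    obtain ⟨θ, hθ, hθ2⟩ := class_map hp hp2 hinj b d X X' C C' σ σ'
      hX hX' hC hC' B hB hB' n (x₀, x₀') h₀ h₀' hn₀
    refine ⟨θ, hθ, ?_⟩
    intro x hx x' hx' hn hκ'
    have henc := encJ_spec (fun i => p i ^ u i) (hlab x hx x' hx')
    refine ⟨henc.1, ?_⟩
    have h1 := hθ2 x hx x' hx' hn ?_ ?_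
    · rw [cln, labJ, henc.2]
      exact h1
    · intro j hj
      have h2 := congrFun (hκ'.trans hκ.symm) j
      simp only [PhiB, if_pos hj, Prod.mk.injEq] at h2
      exact h2
    · intro i hi
      by_cases hiB : i ∈ B
      · have h2 := congrFun (hκ'.trans hκ.symm) i
        simp only [PhiB, if_pos hiB, Prod.mk.injEq] at h2
        rw [h2.1, h2.2]
      · have h2 := congrFun (hκ'.trans hκ.symm) i
        simp only [PhiB, if_neg hiB, if_pos hi, Prod.mk.injEq] at h2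
        exact h2.1
  · push Not at hex
    refine ⟨fun i => (0, if d i = 0 then 0 else 1), ?_, ?_⟩
    · rw [Theta, Fintype.mem_piFinset]
      intro i
      rw [mem_product, mem_range, mem_filter, mem_range]
      refine ⟨pow_pos (hp i).pos _, ?_, ?_⟩
      · by_cases hd : d i = 0
        · rw [if_pos hd]
          exact pow_pos (hp i).pos _
        · rw [if_neg hd]
          exact Nat.one_lt_pow hd (hp i).one_lt
      · by_cases hd : d i = 0
        · exact Or.inl hd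
        · right
          rw [if_neg hd]
          exact Nat.coprime_one_left _
    · intro x hx x' hx' hn hκ
      exact absurd hκ (hex x hx x' hx' hn)

/-- the pairs with a given label -/
theorem card_lab_le (hp : ∀ i, (p i).Prime) (hp2 : ∀ i, p i ≠ 2) (b u : ι → ℕ)
    (rk : ι → ℕ) (σ σ' : ∀ i, (ι → ℕ) → ZMod (p i ^ b i))
    (hσ : ∀ i x y, (∀ j, rk j < rk i → x j = y j) → σ i x = σ i y)
    (hσ' : ∀ i x y, (∀ j, rk j < rk i → x j = y j) → σ' i x = σ' i y)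
    (c : ∀ i, ZMod (p i ^ b i)) (q : ℕ) (S : Finset ((ι → ℕ) × (ι → ℕ)))
    (hS : ∀ g ∈ S, ∀ i, Good (g.1 i) ∧ Good (g.2 i) ∧ (g.1 i).Coprime (p i) ∧
      (g.2 i).Coprime (p i) ∧ (g.1 i * g.2 i) / p i ^ (b i + 1) < p i ^ u i ∧
      (Lg (p i) (b i) (g.1 i) + σ i g.1) + (Lg (p i) (b i) (g.2 i) + σ' i g.2) = c i)
    (hq : ∀ g ∈ S, labJ p b u g = q) :
    S.card ≤ ∏ i, (2 * (p i - 1)) := by
  classical
  refine quot_le hp hp2 b rk σ σ' hσ hσ' c (decJ (fun i => p i ^ u i) q) S ?_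
  intro g hg i
  obtain ⟨h1, h2, h3, h4, h5, h6⟩ := hS g hg i
  refine ⟨h1, h2, h3, h4, ?_, h6⟩
  have henc := encJ_spec (fun i => p i ^ u i) (fun i => (hS g hg i).2.2.2.2.1)
  have h7 := hq g hg
  rw [← h7, labJ, henc.2]

end Pool.Agent.Helper44.T5b
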