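import Pool.Agent.Helper44.T5b.Mov
import Pool.Agent.Helper44.T5b.LabU

/-!
# T5b: the label block of a pair of states with a common front of a static level

`near_R`: for `l' ≤ l` with the same numbers of split and of dropped levels and the common front
`t ≥ 1` the number of representations is at most a constant times the bound for the counting form
of the inner windows, for all classes of labels.
-/

set_option autoImplicit false

namespace Pool.Agent.Helper44.T5b

open Finset
open Pool.Agent.Helper5.ET hiding Key Mk AA Rp keysOf el ext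
open Pool.Agent.Helper27.T4
open Pool.Agent.Helper27.T5b Pool.Agent.Helper37.T5b
open Pool.Agent.Helper30.T5b hiding pz_prime pz_inj
open Pool.Agent.Helper22.HW Pool.Agent.Helper57.T5
open Pool.Agent.Helper39.T5 Pool.Agent.Helper50.T5 Pool.Agent.Helper42.T5.Pr
open Pool.Agent.Helper84.T5b Pool.Agent.Helper44.T5

/-! ## the data of the labels -/

/-- the number of digits of the joint families between `l'` and the front `t` of `l` -/
noncomputable def dJ (m k l l' t : ℕ) : JF → ℕ := fun i =>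
  aJ m k (sL m k l) (ef m k l t) i - aJ m k (sL m k l) l' i

/-- half of the number of digits of the joint families between `l'` and `l` -/
noncomputable def uJ (m k l l' : ℕ) : JF → ℕ := fun i =>
  (aJ m k (sL m k l) l i - aJ m k (sL m k l) l' i) / 2

/-- the number of labels -/
noncomputable def IJ (m k l l' : ℕ) : ℕ := ∏ i, pJ k (sL m k l) i ^ uJ m k l l' i

/-- the modulus of the classes -/
noncomputable def DJ (m k l l' t : ℕ) : ℕ := NN (pJ k (sL m k l)) (dJ m k l l' t)

/-- the class maps -/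
noncomputable def clJ (m k l l' t : ℕ) (θ : JF → ℕ × ℕ) (i : ℕ) : ℕ :=
  cln (pJ_prime k (sL m k l)) (pJ_inj k (sL m k l)) (aJ m k (sL m k l) l') (dJ m k l l' t)
    (uJ m k l l') θ i

/-- decoding constant of the joint level -/
noncomputable def CJ (k s : ℕ) : ℕ := ∏ i, (2 * (pJ k s i - 1))

/-- decoding constant of the static level `t` -/
noncomputable def CS (k s t : ℕ) : ℕ := ∏ i, (2 * (pz k (s - t) i - 1))

/-! ## ranks -/

/-- a rank for both orders -/
noncomputable def rkJ (m k l : ℕ) : JF → ℕ :=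
  Sum.elim (fun f => rk (ordK (mL m k l)) f) (fun _ => 0)

theorem rkJ_pre {m k l : ℕ} {i j : JF} (h : j ∈ preJ m k l i) : rkJ m k l j < rkJ m k l i := by
  rcases i with g | i
  · have h' : j ∈ (pre (mL m k l) g).image Sum.inl := h
    obtain ⟨f, hf, rfl⟩ := mem_image.1 h'
    exact ((mem_pre _ _ _).1 hf).2
  · exact absurd h (notMem_empty _)

theorem rkJ_pre' {m k l l' : ℕ} (h0 : bb 0 ≤ mL m k l') (hl : l' ≤ l)
    (hc : 60 * (mL m k l - mL m k l') ≤ mL m k l) {i j : JF} (h : j ∈ preJ m k l' i) :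
    rkJ m k l j < rkJ m k l i := by
  rcases i with g | i
  · have h' : j ∈ (pre (mL m k l') g).image Sum.inl := h
    obtain ⟨f, hf, rfl⟩ := mem_image.1 h'
    show rk (ordK (mL m k l)) f < rk (ordK (mL m k l)) g
    rw [mem_pre] at hf
    rcases phase_cases (l := mL m k l) (l' := mL m k l') h0 (l1_mono _ hl) hc with h1 | h1 | h1 | h1
    · rw [← h1.2.1]; exact hf.2
    · rw [h1.2.2.1, ← h1.2.1]; exact hf.2
    · obtain ⟨-, h2, h3, h4, -⟩ := h1
      obtain ⟨hn, hlt⟩ := hf
      rw [h2] at hn hlt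
      rw [h3]
      rcases fam_cases (era (mL m k l)) f with rfl | rfl | rfl <;>
      rcases fam_cases (era (mL m k l)) g with rfl | rfl | rfl <;>
      simp only [rk_self, rk_next, rk_next2, rk_prev] at hlt hn ⊢ <;>
      first
      | omega
      | (exfalso; exact hn ⟨h4, trivial⟩)
    · rw [h1.2.2.1, ← h1.2.1]; exact hf.2
  · exact absurd h (notMem_empty _)

theorem NN_add {ι : Type*} [Fintype ι] (p b d : ι → ℕ) :
    NN p (fun i => b i + d i) = NN p b * NN p d := by
  unfold NN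
  rw [← Finset.prod_mul_distrib]
  exact Finset.prod_congr rfl (fun i _ => pow_add _ _ _)

theorem exists_inv_mod {L D : ℕ} (hD : 0 < D) (h : L.Coprime D) :
    ∃ Qi, L * Qi ≡ 1 [MOD D] := by
  haveI : NeZero D := ⟨hD.ne'⟩
  refine ⟨((L : ZMod D)⁻¹).val, (ZMod.natCast_eq_natCast_iff _ _ _).1 ?_⟩
  rw [Nat.cast_mul, ZMod.natCast_zmod_val, Nat.cast_one]
  exact ZMod.coe_mul_inv_eq_one L h

/-! ## the block -/

/-- **the label block for a pair of states with a common front of a static level** -/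
theorem near_R {m k l l' t : ℕ} (hm : 0 < m) (h0 : bb 0 ≤ mL m k l') (hl : l' ≤ l)
    (hs : sL m k l' = sL m k l) (ht' : t ≤ rL m k l') (ht1 : 1 ≤ t) (ht : t ≤ rL m k l)
    (hfr : ef m k l' t = ef m k l t) (hc : 60 * (mL m k l - mL m k l') ≤ mL m k l)
    (hpos0 : ∀ f : Fin 3, 0 < aJ m k (sL m k l) l' (Sum.inl f))
    (hsz : ∀ u < t, 2 * (FF m k l u * LL (QQ m k (sL m k l)) u) ≤
      FF m k l (u + 1) * LL (QQ m k (sL m k l)) (u + 1))
    (hsz' : ∀ u < t, 2 * (FF m k l' u * LL (QQ m k (sL m k l)) u) ≤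
      FF m k l' (u + 1) * LL (QQ m k (sL m k l)) (u + 1))
    (w : Key → ℕ) {R : ℕ} (n : ℕ)
    (hR : ∀ θ ∈ Theta (pJ k (sL m k l)) (dJ m k l l' t), ∀ γ N Qi : ℕ,
      LL (QQ m k (sL m k l)) t * Qi ≡ 1 [MOD DJ m k l l' t] → ∀ κ₂ < 4,
      cN (Zw m k l t w) (Zw m k l' t w) (IJ m k l l')
        (Jn m k (sL m k l) l' * LL (QQ m k (sL m k l)) t) (DJ m k l l' t)
        (fun i => Qi * (clJ m k l l' t θ i + γ)) κ₂
        (Jn m k (sL m k l) l' * LL (QQ m k (sL m k l)) t * N) ≤ R) :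
    Rp m k l l' w n ≤ CJ k (sL m k l) *
      ((CJ k (sL m k l) * ∏ u ∈ range t, CS k (sL m k l) u) * (4 * R)) := by
  classical
  have hrL := rL_le hm k l
  have hk1 : t ≤ k + 1 := by omega
  have hts : t ≤ sL m k l := by omega
  -- the fronts
  have he' : ez m (sL m k l - t) l' = ez m (sL m k l - t) l := by
    have h1 : ef m k l' t = ez m (sL m k l' - t) l' := rfl
    have h2 : ef m k l t = ez m (sL m k l - t) l := rfl
    rw [hs] at h1
    rw [← h1, ← h2]
    exact hfr
  have hef : ∀ u ≤ t, ef m k l t ≤ ef m k l u := fun u hu =>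
    ez_le hm (show sL m k l - t ≤ sL m k l - u by omega) l
  have hef' : ∀ u ≤ t, ef m k l t ≤ ef m k l' u := fun u hu => by
    have h1 : ef m k l' u = ez m (sL m k l - u) l' := by
      show ez m (sL m k l' - u) l' = _
      rw [hs]
    rw [h1, show ef m k l t = ez m (sL m k l - t) l from rfl, ← he']
    exact ez_le hm (show sL m k l - t ≤ sL m k l - u by omega) l'
  have hle : l' ≤ ef m k l t := hl.trans (lt_ez hm _ l).le
  set p := pJ k (sL m k l) with hp
  set b := aJ m k (sL m k l) l' with hbd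
  set d := dJ m k l l' t with hdd
  set u := uJ m k l l' with hud
  have hbe : ∀ i, b i + d i = aJ m k (sL m k l) (ef m k l t) i := fun i => by
    have h1 := aJ_mono m k (sL m k l) i hle
    simp only [hbd, hdd, dJ]
    omega
  have hFt : Jn m k (sL m k l) (ef m k l t) = Jn m k (sL m k l) l' * DJ m k l l' t := by
    unfold Jn DJ
    rw [← NN_add]
    congr 1
    funext i
    exact (hbe i).symm
  have hFF : FF m k l t = Jn m k (sL m k l) l' * DJ m k l l' t := hFt
  have hFF' : FF m k l' t = Jn m k (sL m k l) l' * DJ m k l l' t := by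
    rw [← hFt, ← hfr]
    show Jn m k (sL m k l') (ef m k l' t) = _
    rw [hs]
  -- the two sets
  have hA1 := AA_split (m := m) (k := k) (l := l) (w := w) ht ht1
  have hA2 := AA_split (m := m) (k := k) (l := l') (w := w) (s := t) ht' ht1
  have e1 : XJ m k l' = XJG m k (sL m k l) l' := by rw [XJ_eq, hs]
  have e2 : c0 m k l' w = c0G m k (sL m k l) (ef m k l' 0) l' w := by
    funext x
    rw [c0_eq, hs]
  have e3 : Ys m k l' = Ys m k l := by
    funext v
    rw [Ys_eq_YsG, hs]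
    rfl
  rw [e1, e2, e3] at hA2
  have hXg := fun x (hx : x ∈ XJ m k l) (i : JF) => XJG_spec (m := m) (k := k) hx i
  have hXg' := fun x (hx : x ∈ XJG m k (sL m k l) l') (i : JF) => XJG_spec hx i
  -- codes modulo lower powers
  have hcl : ∀ x ∈ XJ m k l, ∀ i, ∀ e ≤ aJ m k (sL m k l) (ef m k l t) i,
      ((c0 m k l w x : ℕ) : ZMod (p i ^ e)) = Lg (p i) e (x i) +
        ((w (Key.J l i (maskJ (preJ m k l i) x)) : ℕ) : ZMod (p i ^ e)) := by
    intro x hx i e he
    rw [c0_eq]
    exact c0G_cast_low m k _ _ l w x i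
      (he.trans (aJ_mono m k _ i (hef 0 (Nat.zero_le _)))) (hXg x hx i).2.1
  have hcl' : ∀ x ∈ XJG m k (sL m k l) l', ∀ i, ∀ e ≤ aJ m k (sL m k l) (ef m k l t) i,
      ((c0G m k (sL m k l) (ef m k l' 0) l' w x : ℕ) : ZMod (p i ^ e)) = Lg (p i) e (x i) +
        ((w (Key.J l' i (maskJ (preJ m k l' i) x)) : ℕ) : ZMod (p i ^ e)) := by
    intro x hx i e he
    exact c0G_cast_low m k _ _ l' w x i
      (he.trans (aJ_mono m k _ i (hef' 0 (Nat.zero_le _)))) (hXg' x hx i).2.1
  have hquot : ∀ x ∈ XJ m k l, ∀ x' ∈ XJG m k (sL m k l) l', ∀ i,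
      (x i * x' i) / p i ^ (b i + 1) < p i ^ u i := by
    intro x hx x' hx' i
    exact quot_lt (pJ_prime k _ i).one_lt (aJ_mono m k _ i hl) (hXg x hx i).2.2 (hXg' x' hx' i).2.2
  -- movers
  have hmov : ∀ g : Fin 3, d (Sum.inl g) ≠ 0 → g = fam (era (mL m k l')) := by
    intro g hg
    obtain ⟨z, h1, h2, h3⟩ := exists_main_digit hg
    have h4 := one_era hm h0 hs ht1 hts he' h1 h2
    rw [← h3, own_eq, h4]
  set B := BJ m k l d with hB
  have hdep : ∀ (L : ℕ) (e : JF → ℕ) (i : JF) (P : Finset JF), preJ m k L i ⊆ P →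
      ∀ x y : JF → ℕ, (∀ j ∈ P, x j = y j) →
        ((w (Key.J L i (maskJ (preJ m k L i) x)) : ℕ) : ZMod (p i ^ e i)) =
        ((w (Key.J L i (maskJ (preJ m k L i) y)) : ℕ) : ZMod (p i ^ e i)) := by
    intro L e i P hP x y hxy
    rw [maskJ_congr (fun g hg => hxy g (hP hg))]
  have hcast : ∀ (z : ℕ) (i : JF) (e : ℕ) (a a' : ZMod (p i ^ e)) (c c' : ℕ),
      ((c : ℕ) : ZMod (p i ^ e)) = a → ((c' : ℕ) : ZMod (p i ^ e)) = a' →
      c + c' ≡ z [MOD p i ^ e] → a + a' = ((z : ℕ) : ZMod (p i ^ e)) := by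
    intro z i e a a' c c' h1 h2 h3
    rw [← h1, ← h2, ← Nat.cast_add]
    exact (ZMod.natCast_eq_natCast_iff _ _ _).2 h3
  -- joint labels for every type
  have hjl := fun κ : JF → ℕ × ℕ => joint_labels_u (pJ_prime k (sL m k l)) (pJ_ne_two k _)
    (pJ_inj k (sL m k l)) b d u (XJ m k l) (XJG m k (sL m k l) l') (c0 m k l w)
    (c0G m k (sL m k l) (ef m k l' 0) l' w)
    (fun i x => ((w (Key.J l i (maskJ (preJ m k l i) x)) : ℕ) : ZMod (p i ^ (b i + d i))))
    (fun i x => ((w (Key.J l' i (maskJ (preJ m k l' i) x)) : ℕ) : ZMod (p i ^ (b i + d i))))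
    (fun x hx i => (hXg x hx i).2.1) (fun x hx i => (hXg' x hx i).2.1) hquot
    (fun x hx i => hcl x hx i _ (hbe i).le) (fun x hx i => hcl' x hx i _ (hbe i).le) B
    (fun i hi x y hxy => hdep l (fun i => b i + d i) i B (preJ_mover h0 hl hc hmov hi).1 x y hxy)
    (fun i hi x y hxy => hdep l' (fun i => b i + d i) i B (preJ_mover h0 hl hc hmov hi).2 x y hxy)
    n κ
  choose θ hθ hθ2 using hjl
  -- the types
  set S0 := (XJ m k l ×ˢ XJG m k (sL m k l) l').filter
    (fun q => c0 m k l w q.1 + c0G m k (sL m k l) (ef m k l' 0) l' w q.2 ≡ n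
      [MOD Jn m k (sL m k l) l']) with hS0
  set Ty := S0.image (PhiB p b d B) with hTy
  have hS0m : ∀ q ∈ S0, (q.1 ∈ XJ m k l ∧ q.2 ∈ XJG m k (sL m k l) l') ∧
      c0 m k l w q.1 + c0G m k (sL m k l) (ef m k l' 0) l' w q.2 ≡ n
      [MOD Jn m k (sL m k l) l'] := by
    intro q hq
    rw [hS0, mem_filter, mem_product] at hq
    exact hq
  have hsumc : ∀ q ∈ S0, ∀ i,
      (Lg (p i) (b i) (q.1 i) + ((w (Key.J l i (maskJ (preJ m k l i) q.1)) : ℕ) :
        ZMod (p i ^ b i))) +
      (Lg (p i) (b i) (q.2 i) + ((w (Key.J l' i (maskJ (preJ m k l' i) q.2)) : ℕ) :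
        ZMod (p i ^ b i))) = ((n : ℕ) : ZMod (p i ^ b i)) := by
    intro q hq i
    obtain ⟨⟨h1, h2⟩, h3⟩ := hS0m q hq
    exact hcast n i (b i) _ _ _ _ (hcl _ h1 i _ (by have := hbe i; omega))
      (hcl' _ h2 i _ (by have := hbe i; omega)) (h3.of_dvd (pow_dvd_NN p b i))
  have hpreBd : ∀ i, (i ∈ B ∨ d i ≠ 0) → (∀ x y : JF → ℕ,
      (∀ j ∈ B, rkJ m k l j < rkJ m k l i → x j = y j) →
        ((w (Key.J l i (maskJ (preJ m k l i) x)) : ℕ) : ZMod (p i ^ b i)) =
        ((w (Key.J l i (maskJ (preJ m k l i) y)) : ℕ) : ZMod (p i ^ b i))) ∧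
      (∀ x y : JF → ℕ, (∀ j ∈ B, rkJ m k l j < rkJ m k l i → x j = y j) →
        ((w (Key.J l' i (maskJ (preJ m k l' i) x)) : ℕ) : ZMod (p i ^ b i)) =
        ((w (Key.J l' i (maskJ (preJ m k l' i) y)) : ℕ) : ZMod (p i ^ b i))) := by
    intro i hi
    have h1 : preJ m k l i ⊆ B ∧ preJ m k l' i ⊆ B := by
      rcases hi with hi | hi
      · have := preJ_BJ h0 hl hc hi
        rw [this.1, this.2]
        exact ⟨empty_subset _, empty_subset _⟩
      · exact preJ_mover h0 hl hc hmov hi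
    constructor
    · intro x y hxy
      rw [maskJ_congr (fun g hg => hxy g (h1.1 hg) (rkJ_pre hg))]
    · intro x y hxy
      rw [maskJ_congr (fun g hg => hxy g (h1.2 hg) (rkJ_pre' h0 hl hc hg))]
  have hTyc : Ty.card ≤ CJ k (sL m k l) := by
    refine card_PhiB_le (pJ_prime k (sL m k l)) (pJ_ne_two k _) b d B (rkJ m k l)
      (fun i x => ((w (Key.J l i (maskJ (preJ m k l i) x)) : ℕ) : ZMod (p i ^ b i)))
      (fun i x => ((w (Key.J l' i (maskJ (preJ m k l' i) x)) : ℕ) : ZMod (p i ^ b i)))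
      (fun i hi => (hpreBd i hi).1) (fun i hi => (hpreBd i hi).2)
      (fun i => ((n : ℕ) : ZMod (p i ^ b i))) S0 ?_
    intro q hq i
    obtain ⟨⟨h1, h2⟩, h3⟩ := hS0m q hq
    refine ⟨(hXg _ h1 i).1, (hXg' _ h2 i).1, (hXg _ h1 i).2.1, (hXg' _ h2 i).2.1, ?_,
      hsumc q hq i⟩
    intro hiB
    -- a family in `B` does not move
    have hd0 : d i = 0 := by
      rw [hB] at hiB
      unfold BJ at hiB
      split_ifs at hiB with h
      · rw [mem_singleton] at hiB
        rw [hiB]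
        exact h
      · exact absurd hiB (notMem_empty _)
    have hpos : 0 < b i := by
      rw [hB] at hiB
      unfold BJ at hiB
      split_ifs at hiB with h
      · rw [mem_singleton] at hiB
        rw [hiB]
        exact hpos0 _
      · exact absurd hiB (notMem_empty _)
    have ha : aJ m k (sL m k l) l i = b i := by
      have h4 := aJ_mono m k (sL m k l) i hl
      have h5 := aJ_mono m k (sL m k l) i (lt_ez hm (sL m k l - t) l).le
      have h6 := hbe i
      rw [hd0, add_zero] at h6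
      have h7 : aJ m k (sL m k l) (ez m (sL m k l - t) l) i = b i := h6.symm
      have h8 : b i = aJ m k (sL m k l) l' i := rfl
      omega
    constructor
    · rcases (hXg _ h1 i).2.2 with ⟨h4, _⟩ | h4
      · have h5 : aJ m k (sL m k l) l i = 0 := h4
        omega
      · have h5 : (q.1 i) ^ 2 < p i ^ aJ m k (sL m k l) l i := h4
        rwa [ha] at h5
    · rcases (hXg' _ h2 i).2.2 with ⟨h4, _⟩ | h4
      · have h5 : b i = 0 := h4
        omega
      · exact h4
  -- the number of pairs with a given label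
  have hCC : ∀ τ i, ((XJ m k l ×ˢ XJG m k (sL m k l) l').filter
      (fun q => c0 m k l w q.1 + c0G m k (sL m k l) (ef m k l' 0) l' w q.2 ≡ n
        [MOD Jn m k (sL m k l) l'] ∧ PhiB p b d B q = τ ∧ labJ p b u q = i)).card ≤
      CJ k (sL m k l) := by
    intro τ i
    refine card_lab_le (pJ_prime k (sL m k l)) (pJ_ne_two k _) b u (rkJ m k l)
      (fun i x => ((w (Key.J l i (maskJ (preJ m k l i) x)) : ℕ) : ZMod (p i ^ b i)))
      (fun i x => ((w (Key.J l' i (maskJ (preJ m k l' i) x)) : ℕ) : ZMod (p i ^ b i)))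
      (fun i x y hxy => by
        rw [maskJ_congr (fun g hg => hxy g (rkJ_pre hg))])
      (fun i x y hxy => by
        rw [maskJ_congr (fun g hg => hxy g (rkJ_pre' h0 hl hc hg))])
      (fun i => ((n : ℕ) : ZMod (p i ^ b i))) i _ ?_ ?_
    · intro q hq j
      rw [mem_filter, mem_product] at hq
      have hqS : q ∈ S0 := by
        rw [hS0, mem_filter, mem_product]
        exact ⟨hq.1, hq.2.1⟩
      exact ⟨(hXg _ hq.1.1 j).1, (hXg' _ hq.1.2 j).1, (hXg _ hq.1.1 j).2.1,
        (hXg' _ hq.1.2 j).2.1, hquot _ hq.1.1 _ hq.1.2 j, hsumc q hqS j⟩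
    · intro q hq
      rw [mem_filter] at hq
      exact hq.2.2.2
  -- the tower
  have hD : 0 < DJ m k l l' t := by
    unfold DJ NN
    exact Finset.prod_pos (fun i _ => pow_pos (pJ_prime k _ i).pos _)
  have hcopL : (LL (QQ m k (sL m k l)) t).Coprime (DJ m k l l' t) := by
    unfold DJ NN
    exact Nat.Coprime.prod_right (fun i _ => Nat.Coprime.pow_right _
      (coprime_LL_pJ (by omega) (by omega) i))
  obtain ⟨Qi, hQi⟩ : ∃ Qi, LL (QQ m k (sL m k l)) t * Qi ≡ 1 [MOD DJ m k l l' t] := by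
    exact exists_inv_mod hD hcopL
  unfold Rp
  refine (card_le_card (Finset.filter_subset_filter _
    (Finset.product_subset_product hA1 hA2))).trans ?_
  refine (scale_pair_card_o (XJ m k l) (XJG m k (sL m k l) l') (c0 m k l w)
    (c0G m k (sL m k l) (ef m k l' 0) l' w) t (Ys m k l) (Ys m k l)
    (fun x t y => cs m k l t w (okey m k l t x) y) (fun x t y => cs m k l' t w (okey m k l' t x) y)
    (QQ m k (sL m k l)) (CS k (sL m k l)) (FF m k l) (FF m k l') (Zw m k l t w) (Zw m k l' t w)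
    (m := Jn m k (sL m k l) l') (D₂ := DJ m k l l' t) (I := IJ m k l l') (R := R)
    (C₁ := CJ k (sL m k l)) (n := n) Ty (PhiB p b d B) (fun τ i => clJ m k l l' t (θ τ) i)
    (labJ p b u) (Jn_pos _ _ _ _) (fun v _ => QQ_pos _ _ _ _) hD hQi hFF hFF' ?_ ?_ hsz hsz'
    (fun x _ => c0_lt m k l w x) ?_ (fun x _ v _ y _ => cs_lt m k l v w _ y) ?_
    (fun x _ v _ y _ => dvd_cs m k l v w _ y) ?_ ?_ ?_ hCC ?_ ?_ ?_).trans ?_
  · intro v hv
    rw [← hFt]
    exact Jn_dvd m k _ (hef v hv)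
  · intro v hv
    rw [← hFt]
    show _ ∣ Jn m k (sL m k l') (ef m k l' v)
    rw [hs]
    exact Jn_dvd m k _ (hef' v hv)
  · intro x _
    have h1 := c0G_lt m k (sL m k l) (ef m k l' 0) l' w x
    have h2 : FF m k l' 0 = Jn m k (sL m k l) (ef m k l' 0) := by
      show Jn m k (sL m k l') (ef m k l' 0) = _
      rw [hs]
    rw [h2]
    exact h1
  · intro x _ v _ y _
    have h1 := cs_lt m k l' v w (okey m k l' v x) y
    rwa [hs] at h1
  · intro x _ v _ y _
    have h1 := dvd_cs m k l' v w (okey m k l' v x) y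
    rwa [hs] at h1
  · intro x _ x' _ v hv
    exact dec_cs hs (by omega) (by omega) w _ _
  · intro q hq hqn
    rw [mem_product] at hq
    have hqS : q ∈ S0 := by
      rw [hS0, mem_filter, mem_product]
      exact ⟨hq, hqn⟩
    have h1 := hθ2 (PhiB p b d B q) q.1 hq.1 q.2 hq.2 hqn rfl
    exact ⟨mem_image_of_mem _ hqS, h1.1, h1.2⟩
  · intro v hv
    have h1 := dvd_Zw hm ht hv
    exact (Nat.mul_dvd_mul_right (Jn_dvd m k _ hl) _).trans h1
  · intro v hv
    have h1 := dvd_Zw hm ht' hv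
    rw [hs] at h1
    exact h1
  · intro τ _ κ₂ hκ
    exact hR (θ τ) (hθ τ) ((DJ m k l l' t - 1) * ((n / Jn m k (sL m k l) l') %
      LL (QQ m k (sL m k l)) t)) (n / Jn m k (sL m k l) l' / LL (QQ m k (sL m k l)) t) Qi hQi κ₂ hκ
  · exact Nat.mul_le_mul_right _ hTyc

end Pool.Agent.Helper44.T5b
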