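import Pool.Agent.Helper57.T5.Tower

/-!
# T5b: the tower of static levels with an outer key

The same as `Helper57.T5.tower_card` and `scale_pair_card_ty`, but the codes of the static levels
may depend on the element of the label level (outer key of the outermost static level).
-/

set_option autoImplicit false

namespace Pool.Agent.Helper44.T5b

open Finset Pool.Agent.Helper22.HW Pool.Agent.Helper57.T5

/-- **Reduction of a pair of scales, configurations; the codes of the levels depend on the label.**  `Λ₁` = configurations of the label level,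
`Y t` = configurations of the static level `t + 1`. -/
theorem tower_card_o {Lam β : Type*} [DecidableEq Lam] [DecidableEq β] (Λ₁ : Finset Lam)
    (s₁ lab : Lam → ℕ) (r : ℕ) (Y : ℕ → Finset β) (σ : Lam → ℕ → β → ℕ) (Q Cd : ℕ → ℕ)
    (U U' : Finset ℕ) {m D₂ h I R C₁ n : ℕ} {cl : ℕ → ℕ} (hm : 0 < m) (hQ : ∀ t < r, 0 < Q t)
    (hD₂ : 0 < D₂) {Qi : ℕ} (hQi : LL Q r * Qi ≡ 1 [MOD D₂])
    (hs : ∀ l ∈ Λ₁, ∀ y : Fin r → β, (∀ t : Fin r, y t ∈ Y t) →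
      s₁ l + ∑ t : Fin r, σ l t (y t) < h * (m * D₂ * LL Q r))
    (hms : ∀ l ∈ Λ₁, m ∣ s₁ l) (hcl : ∀ l ∈ Λ₁, s₁ l / m ≡ cl (lab l) [MOD D₂])
    (hlab : ∀ l ∈ Λ₁, lab l < I) (hC₁ : ∀ i, (Λ₁.filter (fun l => lab l = i)).card ≤ C₁)
    (hσ : ∀ l ∈ Λ₁, ∀ t < r, ∀ y ∈ Y t, m * D₂ * LL Q t ∣ σ l t y)
    (hdec : ∀ l ∈ Λ₁, ∀ t < r, ∀ T, ((Y t).filter (fun y => σ l t y ≡ T [MOD Q t])).card ≤ Cd t)
    (hU : ∀ u ∈ U, m * LL Q r ∣ u) (hU' : ∀ u ∈ U', m * LL Q r ∣ u)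
    (hR : ∀ κ₂ < h, cN U U' I (m * LL Q r) D₂
      (fun i => Qi * (cl i + (D₂ - 1) * ((n / m) % LL Q r))) κ₂
      (m * LL Q r * ((n / m) / LL Q r)) ≤ R) :
    (((Λ₁ ×ˢ Fintype.piFinset (fun t : Fin r => Y t)) ×ˢ (U ×ˢ U')).filter
      (fun t => (s₁ t.1.1 + ∑ i : Fin r, σ t.1.1 i (t.1.2 i)) + (t.2.1 + t.2.2) = n)).card
      ≤ (C₁ * ∏ t ∈ range r, Cd t) * (h * R) := by
  classical
  have hL : 0 < LL Q r := LL_pos hQ
  refine stack_card (Λ₁ ×ˢ Fintype.piFinset (fun t : Fin r => Y t))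
    (fun l => s₁ l.1 + ∑ i : Fin r, σ l.1 i (l.2 i)) (fun l => lab l.1) U U' hm hL hD₂ hQi
    ?_ ?_ ?_ ?_ hU hU' ?_ hR
  · rintro ⟨l, y⟩ hl
    rw [mem_product] at hl
    exact hs l hl.1 y (fun t => (Fintype.mem_piFinset.1 hl.2) t)
  · rintro ⟨l, y⟩ hl
    rw [mem_product] at hl
    refine dvd_add (hms l hl.1) (Finset.dvd_sum (fun t _ => ?_))
    have h1 := hσ l hl.1 t t.2 (y t) ((Fintype.mem_piFinset.1 hl.2) t)
    exact (Dvd.intro _ (by ring : m * (D₂ * LL Q t) = m * D₂ * LL Q t)).trans h1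
  · rintro ⟨l, y⟩ hl
    rw [mem_product] at hl
    have h1 : m * D₂ ∣ ∑ i : Fin r, σ l i (y i) := by
      refine Finset.dvd_sum (fun t _ => ?_)
      exact (Dvd.intro _ rfl).trans (hσ l hl.1 t t.2 (y t) ((Fintype.mem_piFinset.1 hl.2) t))
    obtain ⟨w, hw⟩ := h1
    simp only
    rw [hw, mul_assoc, Nat.add_mul_div_left _ _ hm]
    have h2 : s₁ l / m + D₂ * w ≡ s₁ l / m + 0 [MOD D₂] :=
      Nat.ModEq.add_left _ ((Nat.modEq_zero_iff_dvd).2 (dvd_mul_right _ _))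
    exact h2.trans (by simpa using hcl l hl.1)
  · rintro ⟨l, y⟩ hl
    rw [mem_product] at hl
    exact hlab l hl.1
  · intro i T
    refine le_trans ?_ (Nat.mul_le_mul_right (∏ t ∈ range r, Cd t) (hC₁ i))
    rw [mul_comm]
    refine Finset.card_le_mul_card_image_of_maps_to
      (f := fun l : Lam × (Fin r → β) => l.1) ?_ (∏ t ∈ range r, Cd t) ?_
    · rintro ⟨l, y⟩ hl
      simp only [mem_filter, mem_product] at hl ⊢
      exact ⟨hl.1.1, hl.2.1⟩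
    · intro l hl
      have hlL : l ∈ Λ₁ := (mem_filter.1 hl).1
      rcases Finset.eq_empty_or_nonempty (((Λ₁ ×ˢ Fintype.piFinset (fun t : Fin r => Y t)).filter
        (fun l => lab l.1 = i ∧ s₁ l.1 + ∑ i : Fin r, σ l.1 i (l.2 i) = T)).filter
          (fun q => q.1 = l)) with h0 | ⟨y0, hy0⟩
      · rw [h0]; simp
      · refine le_trans (card_le_card_of_injOn (fun q : Lam × (Fin r → β) => q.2) ?_ ?_)
          (tower_dec Y (σ l) Q Cd r (fun t ht y hy => (dvd_mul_left _ _).trans (hσ l hlL t ht y hy))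
            (hdec l hlL) (∑ i : Fin r, σ l i (y0.2 i)))
        · intro q hq
          simp only [coe_filter, mem_filter, mem_product, Set.mem_ofPred_eq] at hq hy0 ⊢
          refine ⟨hq.1.1.2, ?_⟩
          have h1 : s₁ q.1 + ∑ i : Fin r, σ q.1 i (q.2 i) = s₁ y0.1 + ∑ i : Fin r, σ y0.1 i (y0.2 i) :=
            hq.1.2.2.trans hy0.1.2.2.symm
          rw [hq.2, hy0.2] at h1
          have h2 := Nat.add_left_cancel h1
          rw [h2]
        · intro q hq q' hq' h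
          simp only [coe_filter, mem_filter, mem_product, Set.mem_ofPred_eq] at hq hq'
          exact Prod.ext (hq.2.trans hq'.2.symm) h

/-- the elements of one scale; the codes of the static levels depend on the label vector -/
def scaleO {α β : Type*} [DecidableEq β] (X : Finset α) (c : α → ℕ) (r : ℕ)
    (Y : ℕ → Finset β) (cc : α → ℕ → β → ℕ) (U : Finset ℕ) : Finset ℕ :=
  ((X ×ˢ Fintype.piFinset (fun t : Fin r => Y t)) ×ˢ U).image
    (fun q => (c q.1.1 + ∑ t : Fin r, cc q.1.1 t (q.1.2 t)) + q.2)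

/-- **Reduction of a pair of scales to the finest common front, several types of labels.**
`F`, `F'` = fronts of the two scales (levels `0, ..., r`), `F r = F' r = m * D₂` common.  The pairs
of the label level which can occur are divided into the types in `Ty`. -/
theorem scale_pair_card_o {α β τ : Type*} [DecidableEq α] [DecidableEq β] [DecidableEq τ]
    (X X' : Finset α) (c c' : α → ℕ) (r : ℕ) (Y Y' : ℕ → Finset β) (cc cc' : α → ℕ → β → ℕ)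
    (Q Cd : ℕ → ℕ) (F F' : ℕ → ℕ) (U U' : Finset ℕ) {m D₂ I R C₁ n : ℕ} (Ty : Finset τ)
    (ty : α × α → τ) (cl : τ → ℕ → ℕ) (lab : α × α → ℕ)
    (hm : 0 < m) (hQ : ∀ t < r, 0 < Q t) (hD₂ : 0 < D₂) {Qi : ℕ}
    (hQi : LL Q r * Qi ≡ 1 [MOD D₂])
    (hFr : F r = m * D₂) (hFr' : F' r = m * D₂)
    (hF : ∀ t ≤ r, m * D₂ ∣ F t) (hF' : ∀ t ≤ r, m * D₂ ∣ F' t)
    (hFB : ∀ t < r, 2 * (F t * LL Q t) ≤ F (t + 1) * LL Q (t + 1))
    (hFB' : ∀ t < r, 2 * (F' t * LL Q t) ≤ F' (t + 1) * LL Q (t + 1))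
    (hc : ∀ x ∈ X, c x < F 0) (hc' : ∀ x ∈ X', c' x < F' 0)
    (hcc : ∀ x ∈ X, ∀ t < r, ∀ y ∈ Y t, cc x t y < F (t + 1) * LL Q (t + 1))
    (hcc' : ∀ x ∈ X', ∀ t < r, ∀ y ∈ Y' t, cc' x t y < F' (t + 1) * LL Q (t + 1))
    (hd : ∀ x ∈ X, ∀ t < r, ∀ y ∈ Y t, F (t + 1) * LL Q t ∣ cc x t y)
    (hd' : ∀ x ∈ X', ∀ t < r, ∀ y ∈ Y' t, F' (t + 1) * LL Q t ∣ cc' x t y)
    (hdec : ∀ x ∈ X, ∀ x' ∈ X', ∀ t < r, Dec (Y t) (Y' t) (cc x t) (cc' x' t) (Q t) (Cd t))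
    (hlab : ∀ q ∈ X ×ˢ X', c q.1 + c' q.2 ≡ n [MOD m] →
      ty q ∈ Ty ∧ lab q < I ∧ (c q.1 + c' q.2) / m ≡ cl (ty q) (lab q) [MOD D₂])
    (hC₁ : ∀ θ i, ((X ×ˢ X').filter
      (fun q => c q.1 + c' q.2 ≡ n [MOD m] ∧ ty q = θ ∧ lab q = i)).card ≤ C₁)
    (hU : ∀ u ∈ U, m * LL Q r ∣ u) (hU' : ∀ u ∈ U', m * LL Q r ∣ u)
    (hR : ∀ θ ∈ Ty, ∀ κ₂ < 4, cN U U' I (m * LL Q r) D₂
      (fun i => Qi * (cl θ i + (D₂ - 1) * ((n / m) % LL Q r))) κ₂
      (m * LL Q r * ((n / m) / LL Q r)) ≤ R) :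
    ((scaleO X c r Y cc U ×ˢ scaleO X' c' r Y' cc' U').filter
      (fun a => a.1 + a.2 = n)).card ≤ Ty.card * ((C₁ * ∏ t ∈ range r, Cd t) * (4 * R)) := by
  classical
  set s₁ : α × α → ℕ := fun q => c q.1 + c' q.2 - n % m with hs₁
  set YY : ℕ → Finset (β × β) := fun t => Y t ×ˢ Y' t with hYY
  set σ : α × α → ℕ → β × β → ℕ := fun q t y => cc q.1 t y.1 + cc' q.2 t y.2 with hσd
  set n' := m * (n / m) with hn'
  have hnn : n' + n % m = n := by rw [hn']; exact Nat.div_add_mod n m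
  have hn'm : n' / m = n / m := by rw [hn', Nat.mul_div_cancel_left _ hm]
  -- the configurations of the label level
  set Λ₀ : Finset (α × α) := (X ×ˢ X').filter (fun q => c q.1 + c' q.2 ≡ n [MOD m]) with hΛ0
  set Λ₁ : τ → Finset (α × α) := fun θ => Λ₀.filter (fun q => ty q = θ) with hΛ
  have hsub0 : ∀ θ, ∀ q ∈ Λ₁ θ, q ∈ Λ₀ := fun θ q hq => (mem_filter.1 hq).1
  have hmodΛ : ∀ q ∈ Λ₀, (c q.1 + c' q.2) % m = n % m := fun q hq => (mem_filter.1 hq).2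
  have hleΛ : ∀ q ∈ Λ₀, n % m ≤ c q.1 + c' q.2 := fun q hq => by
    rw [← hmodΛ q hq]; exact Nat.mod_le _ _
  have hs₁m : ∀ q ∈ Λ₀, s₁ q = m * ((c q.1 + c' q.2) / m) := by
    intro q hq
    have h1 := Nat.div_add_mod (c q.1 + c' q.2) m
    rw [hmodΛ q hq] at h1
    simp only [hs₁]
    omega
  have hone : ∀ θ ∈ Ty, (((Λ₁ θ ×ˢ Fintype.piFinset (fun t : Fin r => YY t)) ×ˢ
      (U ×ˢ U')).filter (fun t => (s₁ t.1.1 + ∑ i : Fin r, σ t.1.1 i (t.1.2 i)) + (t.2.1 + t.2.2)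
        = n')).card ≤ (C₁ * ∏ t ∈ range r, Cd t) * (4 * R) := by
    intro θ hθ
    refine tower_card_o (h := 4) (R := R) (I := I) (C₁ := C₁) (n := n') (cl := cl θ)
      (Λ₁ θ) s₁ lab r YY σ Q Cd U U' hm hQ hD₂ hQi ?_ ?_ ?_ ?_ ?_ ?_ ?_ hU hU' ?_
    · -- sizes
      intro q hq y hy
      have hq' := (mem_product.1 (mem_filter.1 (hsub0 θ q hq)).1)
      have hy1 : ∀ t : Fin r, (y t).1 ∈ Y t := fun t => (mem_product.1 (hy t)).1
      have hy2 : ∀ t : Fin r, (y t).2 ∈ Y' t := fun t => (mem_product.1 (hy t)).2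
      have h1 := tower_size (fun t => F t * LL Q t) (c q.1)
        (by simpa [LL_zero] using hc _ hq'.1) r hFB (fun t => cc q.1 t (y t).1)
        (fun t => hcc _ hq'.1 t t.2 _ (hy1 t))
      have h2 := tower_size (fun t => F' t * LL Q t) (c' q.2)
        (by simpa [LL_zero] using hc' _ hq'.2) r hFB' (fun t => cc' q.2 t (y t).2)
        (fun t => hcc' _ hq'.2 t t.2 _ (hy2 t))
      simp only [hFr, hFr'] at h1 h2
      simp only [hs₁, hσd, Finset.sum_add_distrib]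
      omega
    · intro q hq
      rw [hs₁m q (hsub0 θ q hq)]
      exact dvd_mul_right _ _
    · intro q hq
      rw [hs₁m q (hsub0 θ q hq), Nat.mul_div_cancel_left _ hm]
      have h1 := (hlab q (mem_filter.1 (hsub0 θ q hq)).1 (mem_filter.1 (hsub0 θ q hq)).2).2.2
      rw [(mem_filter.1 hq).2] at h1
      exact h1
    · intro q hq
      exact (hlab q (mem_filter.1 (hsub0 θ q hq)).1 (mem_filter.1 (hsub0 θ q hq)).2).2.1
    · intro i
      refine le_trans (card_le_card ?_) (hC₁ θ i)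
      intro q hq
      simp only [hΛ, hΛ0, mem_filter] at hq ⊢
      exact ⟨hq.1.1.1, hq.1.1.2, hq.1.2, hq.2⟩
    · intro q hq t ht y hy
      have hq' := (mem_product.1 (mem_filter.1 (hsub0 θ q hq)).1)
      have hy' := mem_product.1 hy
      refine dvd_add ?_ ?_
      · exact (Nat.mul_dvd_mul_right (hF (t + 1) ht) _).trans (hd _ hq'.1 t ht _ hy'.1)
      · exact (Nat.mul_dvd_mul_right (hF' (t + 1) ht) _).trans (hd' _ hq'.2 t ht _ hy'.2)
    · intro q hq t ht T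
      have hq' := (mem_product.1 (mem_filter.1 (hsub0 θ q hq)).1)
      exact hdec _ hq'.1 _ hq'.2 t ht T
    · intro κ₂ hκ
      rw [hn'm]
      exact hR θ hθ κ₂ hκ
  refine le_trans (card_le_card (t := (Ty.biUnion (fun θ =>
      ((Λ₁ θ ×ˢ Fintype.piFinset (fun t : Fin r => YY t)) ×ˢ
      (U ×ˢ U')).filter (fun t => (s₁ t.1.1 + ∑ i : Fin r, σ t.1.1 i (t.1.2 i)) + (t.2.1 + t.2.2)
        = n'))).image (fun t => (((c t.1.1.1 + ∑ i : Fin r, cc t.1.1.1 i (t.1.2 i).1) + t.2.1,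
          (c' t.1.1.2 + ∑ i : Fin r, cc' t.1.1.2 i (t.1.2 i).2) + t.2.2) : ℕ × ℕ))) ?_)
    (card_image_le.trans (card_biUnion_le.trans
      ((Finset.sum_le_card_nsmul _ _ _ hone).trans (by rw [smul_eq_mul]))))
  rintro ⟨a, a'⟩ ha
  simp only [mem_filter, mem_product, scaleO, mem_image] at ha
  obtain ⟨⟨⟨⟨⟨x, y⟩, u⟩, ⟨⟨hx, hy⟩, hu⟩, hxa⟩, ⟨⟨⟨x', y'⟩, u'⟩, ⟨⟨hx', hy'⟩, hu'⟩, hxa'⟩⟩,
    he⟩ := ha
  simp only at hx hy hu hxa hx' hy' hu' hxa' he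
  rw [Fintype.mem_piFinset] at hy hy'
  -- divisibility of everything but the label codes
  have hmd : ∀ t : Fin r, m ∣ cc x t (y t) := fun t =>
    ((Dvd.intro _ rfl : m ∣ m * D₂).trans (hF (t + 1) t.2)).trans
      ((Dvd.intro _ rfl).trans (hd x hx t t.2 (y t) (hy t)))
  have hmd' : ∀ t : Fin r, m ∣ cc' x' t (y' t) := fun t =>
    ((Dvd.intro _ rfl : m ∣ m * D₂).trans (hF' (t + 1) t.2)).trans
      ((Dvd.intro _ rfl).trans (hd' x' hx' t t.2 (y' t) (hy' t)))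
  have hmu : m ∣ u := (Dvd.intro _ rfl).trans (hU u hu)
  have hmu' : m ∣ u' := (Dvd.intro _ rfl).trans (hU' u' hu')
  have hrest : m ∣ (∑ t : Fin r, cc x t (y t) + ∑ t : Fin r, cc' x' t (y' t)) + (u + u') :=
    dvd_add (dvd_add (Finset.dvd_sum (fun t _ => hmd t)) (Finset.dvd_sum (fun t _ => hmd' t)))
      (dvd_add hmu hmu')
  have hsum : (c x + c' x') + ((∑ t : Fin r, cc x t (y t) + ∑ t : Fin r, cc' x' t (y' t)) + (u + u'))
      = n := by
    rw [← he, ← hxa, ← hxa']; ring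
  have hmod : c x + c' x' ≡ n [MOD m] := by
    have h1 : (c x + c' x') + ((∑ t : Fin r, cc x t (y t) + ∑ t : Fin r, cc' x' t (y' t)) + (u + u'))
        ≡ (c x + c' x') + 0 [MOD m] :=
      Nat.ModEq.add_left _ ((Nat.modEq_zero_iff_dvd).2 hrest)
    rw [hsum] at h1
    simpa using h1.symm
  have hxΛ : (x, x') ∈ Λ₀ := by
    rw [hΛ0, mem_filter, mem_product]
    exact ⟨⟨hx, hx'⟩, hmod⟩
  have hle := hleΛ _ hxΛ
  have hty := (hlab (x, x') (mem_product.2 ⟨hx, hx'⟩) hmod).1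
  rw [mem_image]
  refine ⟨(((x, x'), fun t => (y t, y' t)), (u, u')), ?_, ?_⟩
  · rw [mem_biUnion]
    refine ⟨ty (x, x'), hty, ?_⟩
    simp only [mem_filter, mem_product, Fintype.mem_piFinset]
    refine ⟨⟨⟨mem_filter.2 ⟨hxΛ, rfl⟩, fun t => mem_product.2 ⟨hy t, hy' t⟩⟩, hu, hu'⟩, ?_⟩
    simp only [hs₁, hσd, Finset.sum_add_distrib]
    simp only at hle
    omega
  · simp only [Prod.mk.injEq]
    exact ⟨hxa, hxa'⟩

end Pool.Agent.Helper44.T5b
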