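import Pool.Agent.Helper84.T5b.Defs
import Pool.Agent.Helper30.T5b.Level
import Pool.Agent.Helper37.T5b.Cnt
import Pool.Agent.Helper22.SL.Defs
import Pool.Agent.Helper44.T5b.Tower
import Pool.Agent.Helper44.T5.Enc

/-!
# T5b: first facts about the definitions of `Helper84.T5b`
-/

set_option autoImplicit false

namespace Pool.Agent.Helper44.T5b

open Finset
open Pool.Agent.Helper5.ET hiding Key Mk AA Rp keysOf el ext
open Pool.Agent.Helper27.T4
open Pool.Agent.Helper27.T5b Pool.Agent.Helper37.T5b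
open Pool.Agent.Helper30.T5b hiding pz_prime pz_inj
open Pool.Agent.Helper22.HW Pool.Agent.Helper57.T5
open Pool.Agent.Helper39.T5 Pool.Agent.Helper50.T5 Pool.Agent.Helper42.T5.Pr
open Pool.Agent.Helper84.T5b
open Pool.Agent.Helper27.T5 (sp gw)

/-! ## primes and moduli -/

theorem pJ_ne_two (k s : ℕ) (i : JF) : pJ k s i ≠ 2 := by
  rcases i with f | i
  · exact pr_ne_two f
  · refine Fin.cases ?_ (fun f => ?_) i
    · show (1000039 : ℕ) ≠ 2
      norm_num
    · have h := buf_lt_pz k (s + 1) f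
      show pz k (s + 1) f ≠ 2
      omega

theorem pz_ne_two (k t : ℕ) (f : Fin 3) : pz k t f ≠ 2 := by
  have h := buf_lt_pz k t f
  omega

theorem QQ_eq_NN (m k s t : ℕ) : QQ m k s t = NN (pz k (s - t)) (zf m k (s - t)) := rfl

theorem QQ_pos (m k s t : ℕ) : 0 < QQ m k s t := QT_pos _ _ _

theorem LL_QQ_pos (m k s t : ℕ) : 0 < LL (QQ m k s) t := LL_pos (fun _ _ => QQ_pos _ _ _ _)

theorem Jn_pos (m k s l : ℕ) : 0 < Jn m k s l := by
  unfold Jn NN
  exact Finset.prod_pos (fun i _ => pow_pos (pJ_prime k s i).pos _)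

theorem FF_pos (m k l t : ℕ) : 0 < FF m k l t := Jn_pos _ _ _ _

theorem aJ_mono (m k s : ℕ) (i : JF) {x y : ℕ} (h : x ≤ y) : aJ m k s x i ≤ aJ m k s y i := by
  rcases i with f | i
  · exact ct_mono _ h
  · refine Fin.cases ?_ (fun f => ?_) i
    · exact ct_mono _ h
    · exact ct_mono _ h

theorem Jn_dvd (m k s : ℕ) {x y : ℕ} (h : x ≤ y) : Jn m k s x ∣ Jn m k s y :=
  NN_dvd (pJ k s) (fun i => aJ_mono m k s i h)

/-- the joint primes are prime to the primes of the split levels -/
theorem coprime_pJ_pz {k s t : ℕ} (ht : t ≤ s) (hk : t ≤ k + 1) (i : JF) (f : Fin 3) :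
    (pJ k s i).Coprime (pz k (s - t) f) := by
  rcases i with g | i
  · exact coprime_pr_pz g _ _ _
  · refine Fin.cases ?_ (fun g => ?_) i
    · exact coprime_buf_pz _ _ _
    · exact (coprime_pz (Or.inl (mod_ne (by omega : s - t < s + 1) (by omega)))).symm

theorem coprime_Jn_pz {m k s t x : ℕ} (ht : t ≤ s) (hk : t ≤ k + 1) (f : Fin 3) :
    (Jn m k s x).Coprime (pz k (s - t) f) := by
  unfold Jn NN
  exact Nat.Coprime.prod_left (fun i _ => Nat.Coprime.pow_left _ (coprime_pJ_pz ht hk i f))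

theorem coprime_LL_pz {m k s t u : ℕ} (ht : t ≤ s) (hk : t ≤ k + 2) (hu : u ≤ t) (f : Fin 3) :
    (LL (QQ m k s) u).Coprime (pz k (s - t) f) := by
  unfold LL
  refine Nat.Coprime.prod_left (fun i hi => ?_)
  rw [mem_range] at hi
  rw [QQ_eq_NN]
  unfold NN
  refine Nat.Coprime.prod_left (fun g _ => ?_)
  exact Nat.Coprime.pow_left _
    (coprime_pz (Or.inl (mod_ne (by omega : s - t < s - i) (by omega)))).symm

theorem coprime_LL_pJ {m k s u : ℕ} (hu : u ≤ s + 1) (hk : u ≤ k + 2) (i : JF) :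
    (LL (QQ m k s) u).Coprime (pJ k s i) := by
  unfold LL
  refine Nat.Coprime.prod_left (fun t ht => ?_)
  rw [mem_range] at ht
  rw [QQ_eq_NN]
  unfold NN
  refine Nat.Coprime.prod_left (fun g _ => ?_)
  exact Nat.Coprime.pow_left _ (coprime_pJ_pz (by omega) (by omega) i g).symm

/-! ## the number of static levels -/

theorem k_le_sv {m : ℕ} (hm : 0 < m) (k y : ℕ) : k ≤ sv m k y :=
  (k_le_lv hm k (era y)).trans (Nat.le_add_right _ _)

theorem rL_le {m : ℕ} (hm : 0 < m) (k l : ℕ) : rL m k l ≤ k + 1 ∧ rL m k l ≤ sL m k l := by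
  refine ⟨?_, Nat.sub_le _ _⟩
  have h1 := k_le_lv hm k (era (mL m k l))
  unfold rL sL bL sv dv
  split_ifs <;> omega

/-! ## masks -/

theorem maskJ_congr {P : Finset JF} {x y : JF → ℕ} (h : ∀ g ∈ P, x g = y g) :
    maskJ P x = maskJ P y := by
  funext g
  unfold maskJ
  split_ifs with hg
  · exact h g hg
  · rfl

theorem mask_congr {P : Finset (Fin 3)} {x y : Fin 3 → ℕ} (h : ∀ g ∈ P, x g = y g) :
    mask P x = mask P y := by
  funext g
  unfold mask
  split_ifs with hg
  · exact h g hg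
  · rfl

theorem mask_eq {P : Finset (Fin 3)} {x y : Fin 3 → ℕ} (h : mask P x = mask P y) :
    ∀ g ∈ P, x g = y g := by
  intro g hg
  have := congrFun h g
  simpa [mask, hg] using this

/-! ## the static levels -/

/-- the requirements on one side of a static level -/
theorem Ss_ok {m k l t : ℕ} (ht : t ≤ sL m k l) (hk : t ≤ k + 1) (o : JF → ℕ) :
    (Ss m k l t o).Ok Pool.Agent.Helper22.SL.rk3 (Mk m k) where
  pos := Nat.mul_pos (FF_pos _ _ _ _) (LL_QQ_pos _ _ _ _)
  cop := fun i => Nat.Coprime.mul_left (coprime_Jn_pz ht hk i)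
    (coprime_LL_pz ht (by omega) le_rfl i)
  ze := fun _ => le_rfl
  dep := by
    intro i y y' h
    show Key.S l t i o _ = Key.S l t i o _
    rw [mask_congr (y := y')]
    intro g hg
    exact h g (by simpa [Pool.Agent.Helper22.SL.rk3] using hg)
  inj := by
    intro i i' y y' h
    have h1 : Key.S l t i o (mask (univ.filter (fun g => g < i)) y) =
      Key.S l t i' o (mask (univ.filter (fun g => g < i')) y') := h
    simp only [Key.S.injEq, true_and] at h1
    obtain ⟨h2, h3⟩ := h1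
    subst h2
    refine ⟨rfl, fun j hj => ?_⟩
    exact mask_eq h3 j (by simpa [Pool.Agent.Helper22.SL.rk3] using hj)
  size := fun i y => rfl

/-- the code of a static level with the number of split levels as a parameter -/
noncomputable def csG (m k s t F : ℕ) (key : Fin 3 → (Fin 3 → ℕ) → Key) (w : Key → ℕ)
    (y : Fin 3 → ℕ) : ℕ :=
  (⟨F, zf m k (s - t), zf m k (s - t), key⟩ : Side (pz k (s - t)) Key).cd (pz_prime k _)
    (pz_inj k _) w y

theorem cs_eq_csG (m k l t : ℕ) (w : Key → ℕ) (o : JF → ℕ) (y : Fin 3 → ℕ) :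
    cs m k l t w o y = csG m k (sL m k l) t (FF m k l (t + 1) * LL (QQ m k (sL m k l)) t)
      (fun f y => Key.S l t f o (mask (univ.filter (fun g => g < f)) y)) w y := rfl

theorem dvd_cs (m k l t : ℕ) (w : Key → ℕ) (o : JF → ℕ) (y : Fin 3 → ℕ) :
    FF m k l (t + 1) * LL (QQ m k (sL m k l)) t ∣ cs m k l t w o y := by
  unfold cs Side.cd lc
  exact dvd_fc _ _ _ _ _

theorem cs_lt (m k l t : ℕ) (w : Key → ℕ) (o : JF → ℕ) (y : Fin 3 → ℕ) :
    cs m k l t w o y < FF m k l (t + 1) * LL (QQ m k (sL m k l)) (t + 1) := by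
  rw [LL_succ, QQ_eq_NN, ← mul_assoc]
  unfold cs Side.cd lc
  exact fc_lt _ _ _ (Nat.mul_pos (FF_pos _ _ _ _) (LL_QQ_pos _ _ _ _)) _ _

theorem Ys_adm (m k l t : ℕ) : Adm (pz k (sL m k l - t)) (zf m k (sL m k l - t)) (Ys m k l t) := by
  intro y hy i
  exact mem_T1.1 ((Fintype.mem_piFinset.1 hy) i)

/-- the static vectors with the number of split levels as a parameter -/
noncomputable def YsG (m k s t : ℕ) : Finset (Fin 3 → ℕ) := TT (pz k (s - t)) (zf m k (s - t))

theorem Ys_eq_YsG (m k l t : ℕ) : Ys m k l t = YsG m k (sL m k l) t := rfl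

/-- **one static level decodes**, any outer keys -/
theorem dec_cs {m k l l' t : ℕ} (hs : sL m k l' = sL m k l) (ht : t ≤ sL m k l) (hk : t ≤ k + 1)
    (w : Key → ℕ) (o o' : JF → ℕ) :
    Dec (Ys m k l t) (Ys m k l t) (cs m k l t w o) (cs m k l' t w o') (QQ m k (sL m k l) t)
      (∏ i, (2 * (pz k (sL m k l - t) i - 1))) := by
  have h1 := Ss_ok ht hk o
  have key : ∀ s, sL m k l' = s → t ≤ s →
      Dec (YsG m k s t) (YsG m k s t)
        (csG m k s t (FF m k l (t + 1) * LL (QQ m k s) t)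
          (fun f y => Key.S l t f o (mask (univ.filter (fun g => g < f)) y)) w)
        (csG m k s t (FF m k l' (t + 1) * LL (QQ m k s) t)
          (fun f y => Key.S l' t f o' (mask (univ.filter (fun g => g < f)) y)) w)
        (QQ m k s t) (∏ i, (2 * (pz k (s - t) i - 1))) := by
    intro s hs' hts
    have hcop : ∀ (x : ℕ) (i : Fin 3), (Jn m k s x * LL (QQ m k s) t).Coprime (pz k (s - t) i) :=
      fun x i => Nat.Coprime.mul_left (coprime_Jn_pz hts hk i)
        (coprime_LL_pz hts (by omega) le_rfl i)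
    have hF' : FF m k l' (t + 1) = Jn m k s (ef m k l' (t + 1)) := by rw [← hs']; rfl
    have hadm : Adm (pz k (s - t)) (zf m k (s - t)) (YsG m k s t) := by
      intro y hy i
      exact mem_T1.1 ((Fintype.mem_piFinset.1 hy) i)
    have hF : FF m k l (t + 1) = Jn m k s (ef m k l (t + 1)) := by
      have : sL m k l = s := hs ▸ hs'
      rw [← this]; rfl
    rw [QQ_eq_NN]
    have hdep : ∀ (L : ℕ) (O : JF → ℕ) (i : Fin 3) (y y' : Fin 3 → ℕ),
        (∀ j, Pool.Agent.Helper22.SL.rk3 j < Pool.Agent.Helper22.SL.rk3 i → y j = y' j) →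
        ((w (Key.S L t i O (mask (univ.filter (fun g => g < i)) y)) : ℕ) :
          ZMod (pz k (s - t) i ^ zf m k (s - t) i)) =
        ((w (Key.S L t i O (mask (univ.filter (fun g => g < i)) y')) : ℕ) :
          ZMod (pz k (s - t) i ^ zf m k (s - t) i)) := by
      intro L O i y y' h
      rw [mask_congr (y := y')]
      intro g hg
      exact h g (by simpa [Pool.Agent.Helper22.SL.rk3] using hg)
    exact dec_static (pz_prime k _) (pz_ne_two k _) (pz_inj k _)
      (FF m k l (t + 1) * LL (QQ m k s) t) (FF m k l' (t + 1) * LL (QQ m k s) t)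
      (by rw [hF]; exact hcop _) (by rw [hF']; exact hcop _)
      Pool.Agent.Helper22.SL.rk3 (zf m k (s - t)) (zf m k (s - t)) (zf m k (s - t))
      (fun i => le_rfl) (fun i => le_rfl) _ _ (hdep l o) (hdep l' o')
      (YsG m k s t) (YsG m k s t) hadm hadm
  have h2 := key (sL m k l) hs ht
  have h3 : ∀ y, cs m k l' t w o' y = csG m k (sL m k l) t
      (FF m k l' (t + 1) * LL (QQ m k (sL m k l)) t)
      (fun f y => Key.S l' t f o' (mask (univ.filter (fun g => g < f)) y)) w y := by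
    intro y
    rw [cs_eq_csG, hs]
  rw [show cs m k l' t w o' = _ from funext h3]
  exact h2

end Pool.Agent.Helper44.T5b
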