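import Pool.Agent.Helper44.T5b.NearRSLate
import Pool.Agent.Helper33.T5b.BotS

/-!
# T5b: the label block across SPLIT, all fronts common

`nearRSB` is the hypothesis of `Helper33.T5b.blk_botS_of`.
-/

set_option autoImplicit false

namespace Pool.Agent.Helper44.T5b

open Finset
open Pool.Agent.Helper27.T4 Pool.Agent.Helper37.T5b
open Pool.Agent.Helper84.T5b Pool.Agent.Helper44.T5
open Pool.Agent.Helper22.NEARs (ZwO)

/-- the windows of the last level do not depend on an outer key -/
theorem ZwO_last (m k l : ℕ) (o : JF → ℕ) (w : Key → ℕ) :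
    ZwO m k l (rL m k l) o w = Zw m k l (rL m k l) w := by
  unfold ZwO Zw
  refine Finset.image_congr (fun q _ => ?_)
  show _ + Un m k l * q.2 = _ + Un m k l * q.2
  congr 1
  refine Finset.sum_congr rfl (fun u _ => ?_)
  have := u.2
  omega

theorem nearRSB (m k : ℕ) (hm : 2 ≤ m) : Pool.Agent.Helper33.T5b.NearRSB m k := by
  obtain ⟨l0, h0⟩ := near_RS_late (m := m) (by omega) k
  obtain ⟨l1', h1'⟩ := Pool.Agent.Helper33.T5b.exists_splitP (m := m) (by omega) k
  refine ⟨CRS k, l0 + l1', ?_⟩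
  intro l l' hl' hl hN hS he w R hR n
  have hsp := h1' l l' (by omega) hl hN hS
  have hrl : rL m k l = k + 1 := hsp.rL1
  have hrl' : rL m k l' = k := hsp.rL'
  have hb : sL m k l - (k + 1) = bL m k l := by
    rw [hsp.s1, hsp.b1]
    omega
  refine h0 l l' k (by omega) hl hN hS hrl.ge (by rw [hb]; exact he) w R n ?_
  intro o _ θ hθ γ N Qi hQi κ₂ hκ
  have h1 := hR θ (by rw [hrl]; exact hθ) γ N Qi (by rw [hrl]; exact hQi) κ₂ hκ
  have h2 := ZwO_last m k l' o w
  rw [hrl'] at h1 h2
  rw [hrl] at h1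
  rw [h2]
  exact h1

end Pool.Agent.Helper44.T5b
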