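import Pool.Agent.Helper54.T5.Split

/-!
# T5b: the combined label level across SPLIT, abstract form

Upper state: joint vector `x` (code `c x`) and the vector `y` of the newest static level (code
`c0 x y`, a multiple of `J * D`).  Lower state: joint vector `x'` (code `c' x'`); `dr x'` is its part
in the families of the upper state (code `c'' (dr x')` modulo `J * D`), `nw x'` the newborn triple
(residue `g (nw x')` modulo `Q`).
-/

set_option autoImplicit false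

namespace Pool.Agent.Helper44.T5b

open Finset
open Pool.Agent.Helper54.T5 (split_class)

variable {α α' α'' β γ τ : Type*}

/-- labels and classes of the combined level -/
theorem comb_lab {X : Finset α} {X' : Finset α'} {X'' : Finset α''} {Y : Finset β}
    {c : α → ℕ} {c' : α' → ℕ} {c'' : α'' → ℕ} {c0 : α → β → ℕ} {dr : α' → α''}
    {J D Q n I Qi : ℕ} (hJ : 0 < J) (hD : 0 < D) (hQi : Q * Qi ≡ 1 [MOD D])
    (hdr : ∀ x ∈ X', dr x ∈ X'') (hc' : ∀ x ∈ X', c' x ≡ c'' (dr x) [MOD J * D])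
    (hc0 : ∀ x ∈ X, ∀ y ∈ Y, J * D ∣ c0 x y)
    {Ty : Finset τ} {ty : α × α'' → τ} {lab : α × α'' → ℕ} {cl : τ → ℕ → ℕ}
    (hlab : ∀ q ∈ X ×ˢ X'', c q.1 + c'' q.2 ≡ n [MOD J] →
      ty q ∈ Ty ∧ lab q < I ∧ (c q.1 + c'' q.2) / J ≡ cl (ty q) (lab q) [MOD D]) :
    ∀ q ∈ (X ×ˢ Y) ×ˢ X', (c q.1.1 + c0 q.1.1 q.1.2) + c' q.2 ≡ n [MOD J * Q] →
      ty (q.1.1, dr q.2) ∈ Ty ∧ lab (q.1.1, dr q.2) < I ∧
        ((c q.1.1 + c0 q.1.1 q.1.2) + c' q.2) / (J * Q) ≡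
          Qi * (cl (ty (q.1.1, dr q.2)) (lab (q.1.1, dr q.2)) + (D - 1) * ((n / J) % Q))
            [MOD D] := by
  rintro ⟨⟨x, y⟩, x'⟩ hq hn
  rw [mem_product, mem_product] at hq
  obtain ⟨⟨hx, hy⟩, hx'⟩ := hq
  simp only at hx hy hx' hn ⊢
  have h1 : (c x + c0 x y) + c' x' ≡ c x + c'' (dr x') [MOD J * D] := by
    have h2 : c0 x y ≡ 0 [MOD J * D] := (Nat.modEq_zero_iff_dvd).2 (hc0 x hx y hy)
    have h3 := ((Nat.ModEq.refl (n := J * D) (c x)).add h2).add (hc' x' hx')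
    simpa using h3
  have h2 : c x + c'' (dr x') ≡ n [MOD J] :=
    (h1.of_dvd (dvd_mul_right _ _)).symm.trans (hn.of_dvd (dvd_mul_right _ _))
  obtain ⟨h3, h4, h5⟩ := hlab (x, dr x') (mem_product.2 ⟨hx, hdr x' hx'⟩) h2
  exact ⟨h3, h4, split_class hJ hD hQi hn h1 h5 rfl⟩

/-- number of the pairs with a given label of the combined level -/
theorem comb_count [DecidableEq α] [DecidableEq α'] [DecidableEq α''] [DecidableEq β]
    [DecidableEq γ] [DecidableEq τ]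
    {X : Finset α} {X' : Finset α'} {X'' : Finset α''} {Y : Finset β} {Z : Finset γ}
    {c : α → ℕ} {c' : α' → ℕ} {c'' : α'' → ℕ} {c0 : α → β → ℕ} {dr : α' → α''} {nw : α' → γ}
    {g : γ → ℕ} {J D Q n C₁ Cd : ℕ}
    (hdr : ∀ x ∈ X', dr x ∈ X'') (hc' : ∀ x ∈ X', c' x ≡ c'' (dr x) [MOD J * D])
    (hc0 : ∀ x ∈ X, ∀ y ∈ Y, J * D ∣ c0 x y)
    (hnw : ∀ q ∈ (X ×ˢ Y) ×ˢ X', nw q.2 ∈ Z) (hg : ∀ x ∈ X', c' x ≡ g (nw x) [MOD Q])
    (hinj : ∀ x ∈ X', ∀ y ∈ X', dr x = dr y → nw x = nw y → x = y)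
    (hdec : ∀ x ∈ X, ∀ T, ((Y ×ˢ Z).filter (fun q => c0 x q.1 + g q.2 ≡ T [MOD Q])).card ≤ Cd)
    {ty : α × α'' → τ} {lab : α × α'' → ℕ}
    (hC : ∀ θ i, ((X ×ˢ X'').filter
      (fun q => c q.1 + c'' q.2 ≡ n [MOD J] ∧ ty q = θ ∧ lab q = i)).card ≤ C₁) (θ : τ) (i : ℕ) :
    (((X ×ˢ Y) ×ˢ X').filter (fun q => (c q.1.1 + c0 q.1.1 q.1.2) + c' q.2 ≡ n [MOD J * Q] ∧
      ty (q.1.1, dr q.2) = θ ∧ lab (q.1.1, dr q.2) = i)).card ≤ C₁ * Cd := by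
  refine le_trans ?_ (Nat.mul_le_mul_right Cd (hC θ i))
  rw [mul_comm _ Cd]
  refine Finset.card_le_mul_card_image_of_maps_to
    (f := fun q : (α × β) × α' => (q.1.1, dr q.2)) ?_ Cd ?_
  · rintro ⟨⟨x, y⟩, x'⟩ hq
    simp only [mem_filter, mem_product] at hq ⊢
    obtain ⟨⟨⟨hx, hy⟩, hx'⟩, hn, hl⟩ := hq
    refine ⟨⟨hx, hdr x' hx'⟩, ?_, hl⟩
    have h1 : (c x + c0 x y) + c' x' ≡ c x + c'' (dr x') [MOD J * D] := by
      have h2 : c0 x y ≡ 0 [MOD J * D] := (Nat.modEq_zero_iff_dvd).2 (hc0 x hx y hy)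
      have h3 := ((Nat.ModEq.refl (n := J * D) (c x)).add h2).add (hc' x' hx')
      simpa using h3
    exact (h1.of_dvd (dvd_mul_right _ _)).symm.trans (hn.of_dvd (dvd_mul_right _ _))
  · rintro ⟨x, z⟩ hz
    have hx : x ∈ X := (mem_product.1 (mem_filter.1 hz).1).1
    rcases Finset.eq_empty_or_nonempty ((((X ×ˢ Y) ×ˢ X').filter
      (fun q => (c q.1.1 + c0 q.1.1 q.1.2) + c' q.2 ≡ n [MOD J * Q] ∧
        ty (q.1.1, dr q.2) = θ ∧ lab (q.1.1, dr q.2) = i)).filter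
          (fun q => (q.1.1, dr q.2) = (x, z))) with h0 | ⟨q0, hq0⟩
    · rw [h0]
      simp
    · refine le_trans (card_le_card_of_injOn
        (fun q : (α × β) × α' => ((q.1.2, nw q.2) : β × γ)) ?_ ?_)
        (hdec x hx (c0 x q0.1.2 + g (nw q0.2)))
      · rintro ⟨⟨a, y⟩, x'⟩ hq
        obtain ⟨⟨b, y0⟩, x0⟩ := q0
        simp only [coe_filter, mem_filter, mem_product, Set.mem_ofPred_eq,
          Prod.mk.injEq] at hq hq0 ⊢
        obtain ⟨⟨⟨⟨ha, hy⟩, hx'⟩, hn, _⟩, e1, e2⟩ := hq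
        obtain ⟨⟨⟨⟨hb, hy0⟩, hx0⟩, hn0, _⟩, e3, e4⟩ := hq0
        subst e1
        subst e3
        refine ⟨⟨hy, hnw ((b, y), x') (mem_product.2 ⟨mem_product.2 ⟨ha, hy⟩, hx'⟩)⟩, ?_⟩
        have h1 := (hn.trans hn0.symm).of_dvd (dvd_mul_left Q J)
        have h2 := (Nat.ModEq.refl (n := Q) (c b + c0 b y)).add (hg x' hx')
        have h3 := (Nat.ModEq.refl (n := Q) (c b + c0 b y0)).add (hg x0 hx0)
        have h4 := (h2.symm.trans h1).trans h3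
        rw [add_assoc, add_assoc] at h4
        exact Nat.ModEq.add_left_cancel' _ h4
      · rintro ⟨⟨a, y⟩, x'⟩ hq ⟨⟨b, y0⟩, x0⟩ hq' hh
        simp only [coe_filter, mem_filter, mem_product, Set.mem_ofPred_eq,
          Prod.mk.injEq] at hq hq' hh ⊢
        obtain ⟨⟨⟨_, hx'⟩, _⟩, e1, e2⟩ := hq
        obtain ⟨⟨⟨_, hx0⟩, _⟩, e3, e4⟩ := hq'
        subst e1
        subst e3
        exact ⟨⟨rfl, hh.1⟩, hinj x' hx' x0 hx0 (e2.trans e4.symm) hh.2⟩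

end Pool.Agent.Helper44.T5b
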