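import Pool.Agent.Helper44.T5b.NearR

/-!
# T5b: the label level of a pair of states, separated from the tower

`label_core`: types, labels and class maps of the pairs of joint vectors, for any number `E'` of
digits of the code of the lower state.
-/

set_option autoImplicit false

namespace Pool.Agent.Helper44.T5b

open Finset
open Pool.Agent.Helper5.ET hiding Key Mk AA Rp keysOf el ext
open Pool.Agent.Helper27.T4
open Pool.Agent.Helper27.T5b Pool.Agent.Helper37.T5b
open Pool.Agent.Helper30.T5b hiding pz_prime pz_inj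
open Pool.Agent.Helper22.HW Pool.Agent.Helper57.T5
open Pool.Agent.Helper39.T5 Pool.Agent.Helper50.T5 Pool.Agent.Helper42.T5.Pr
open Pool.Agent.Helper84.T5b Pool.Agent.Helper44.T5

/-- **the label level** -/
theorem label_core {m k l l' t E' : ℕ} (hm : 0 < m) (h0 : bb 0 ≤ mL m k l') (hl : l' ≤ l)
    (hE' : ef m k l t ≤ E') (hc : 60 * (mL m k l - mL m k l') ≤ mL m k l)
    (hmov : ∀ g : Fin 3, dJ m k l l' t (Sum.inl g) ≠ 0 → g = fam (era (mL m k l')))
    (hpos0 : ∀ f : Fin 3, 0 < aJ m k (sL m k l) l' (Sum.inl f)) (w : Key → ℕ) (n : ℕ) :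
    ∃ (Ty : Finset (JF → ℕ × ℕ)) (ty : (JF → ℕ) × (JF → ℕ) → (JF → ℕ × ℕ))
      (lab : (JF → ℕ) × (JF → ℕ) → ℕ) (θ : (JF → ℕ × ℕ) → (JF → ℕ × ℕ)),
      Ty.card ≤ CJ k (sL m k l) ∧
      (∀ τ, θ τ ∈ Theta (pJ k (sL m k l)) (dJ m k l l' t)) ∧
      (∀ q ∈ XJ m k l ×ˢ XJG m k (sL m k l) l',
        c0 m k l w q.1 + c0G m k (sL m k l) E' l' w q.2 ≡ n [MOD Jn m k (sL m k l) l'] →
        ty q ∈ Ty ∧ lab q < IJ m k l l' ∧
          (c0 m k l w q.1 + c0G m k (sL m k l) E' l' w q.2) / Jn m k (sL m k l) l' ≡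
            clJ m k l l' t (θ (ty q)) (lab q) [MOD DJ m k l l' t]) ∧
      ∀ τ i, ((XJ m k l ×ˢ XJG m k (sL m k l) l').filter (fun q =>
        c0 m k l w q.1 + c0G m k (sL m k l) E' l' w q.2 ≡ n [MOD Jn m k (sL m k l) l'] ∧
          ty q = τ ∧ lab q = i)).card ≤ CJ k (sL m k l) := by
  classical
  have hle : l' ≤ ef m k l t := hl.trans (lt_ez hm _ l).le
  set p := pJ k (sL m k l) with hp
  set b := aJ m k (sL m k l) l' with hbd
  set d := dJ m k l l' t with hdd
  set u := uJ m k l l' with hud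
  have hbe : ∀ i, b i + d i = aJ m k (sL m k l) (ef m k l t) i := fun i => by
    have h1 := aJ_mono m k (sL m k l) i hle
    simp only [hbd, hdd, dJ]
    omega
  have hef0 : ef m k l t ≤ ef m k l 0 :=
    ez_le hm (show sL m k l - t ≤ sL m k l - 0 by omega) l
  have hXg := fun x (hx : x ∈ XJ m k l) (i : JF) => XJG_spec (m := m) (k := k) hx i
  have hXg' := fun x (hx : x ∈ XJG m k (sL m k l) l') (i : JF) => XJG_spec hx i
  -- codes modulo lower powers
  have hcl : ∀ x ∈ XJ m k l, ∀ i, ∀ e ≤ aJ m k (sL m k l) (ef m k l t) i,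
      ((c0 m k l w x : ℕ) : ZMod (p i ^ e)) = Lg (p i) e (x i) +
        ((w (Key.J l i (maskJ (preJ m k l i) x)) : ℕ) : ZMod (p i ^ e)) := by
    intro x hx i e he
    rw [c0_eq]
    exact c0G_cast_low m k _ _ l w x i
      (he.trans (aJ_mono m k _ i hef0)) (hXg x hx i).2.1
  have hcl' : ∀ x ∈ XJG m k (sL m k l) l', ∀ i, ∀ e ≤ aJ m k (sL m k l) (ef m k l t) i,
      ((c0G m k (sL m k l) (E') l' w x : ℕ) : ZMod (p i ^ e)) = Lg (p i) e (x i) +
        ((w (Key.J l' i (maskJ (preJ m k l' i) x)) : ℕ) : ZMod (p i ^ e)) := by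
    intro x hx i e he
    exact c0G_cast_low m k _ _ l' w x i
      (he.trans (aJ_mono m k _ i hE')) (hXg' x hx i).2.1
  have hquot : ∀ x ∈ XJ m k l, ∀ x' ∈ XJG m k (sL m k l) l', ∀ i,
      (x i * x' i) / p i ^ (b i + 1) < p i ^ u i := by
    intro x hx x' hx' i
    exact quot_lt (pJ_prime k _ i).one_lt (aJ_mono m k _ i hl) (hXg x hx i).2.2 (hXg' x' hx' i).2.2
  set B := BJ m k l d with hB
  have hdep : ∀ (L : ℕ) (e : JF → ℕ) (i : JF) (P : Finset JF), preJ m k L i ⊆ P →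
      ∀ x y : JF → ℕ, (∀ j ∈ P, x j = y j) →
        ((w (Key.J L i (maskJ (preJ m k L i) x)) : ℕ) : ZMod (p i ^ e i)) =
        ((w (Key.J L i (maskJ (preJ m k L i) y)) : ℕ) : ZMod (p i ^ e i)) := by
    intro L e i P hP x y hxy
    rw [maskJ_congr (fun g hg => hxy g (hP hg))]
  have hcast : ∀ (z : ℕ) (i : JF) (e : ℕ) (a a' : ZMod (p i ^ e)) (c c' : ℕ),
      ((c : ℕ) : ZMod (p i ^ e)) = a → ((c' : ℕ) : ZMod (p i ^ e)) = a' →
      c + c' ≡ z [MOD p i ^ e] → a + a' = ((z : ℕ) : ZMod (p i ^ e)) := by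
    intro z i e a a' c c' h1 h2 h3
    rw [← h1, ← h2, ← Nat.cast_add]
    exact (ZMod.natCast_eq_natCast_iff _ _ _).2 h3
  -- joint labels for every type
  have hjl := fun κ : JF → ℕ × ℕ => joint_labels_u (pJ_prime k (sL m k l)) (pJ_ne_two k _)
    (pJ_inj k (sL m k l)) b d u (XJ m k l) (XJG m k (sL m k l) l') (c0 m k l w)
    (c0G m k (sL m k l) (E') l' w)
    (fun i x => ((w (Key.J l i (maskJ (preJ m k l i) x)) : ℕ) : ZMod (p i ^ (b i + d i))))
    (fun i x => ((w (Key.J l' i (maskJ (preJ m k l' i) x)) : ℕ) : ZMod (p i ^ (b i + d i))))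
    (fun x hx i => (hXg x hx i).2.1) (fun x hx i => (hXg' x hx i).2.1) hquot
    (fun x hx i => hcl x hx i _ (hbe i).le) (fun x hx i => hcl' x hx i _ (hbe i).le) B
    (fun i hi x y hxy => hdep l (fun i => b i + d i) i B (preJ_mover h0 hl hc hmov hi).1 x y hxy)
    (fun i hi x y hxy => hdep l' (fun i => b i + d i) i B (preJ_mover h0 hl hc hmov hi).2 x y hxy)
    n κ
  choose θ hθ hθ2 using hjl
  -- the types
  set S0 := (XJ m k l ×ˢ XJG m k (sL m k l) l').filter
    (fun q => c0 m k l w q.1 + c0G m k (sL m k l) (E') l' w q.2 ≡ n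
      [MOD Jn m k (sL m k l) l']) with hS0
  set Ty := S0.image (PhiB p b d B) with hTy
  have hS0m : ∀ q ∈ S0, (q.1 ∈ XJ m k l ∧ q.2 ∈ XJG m k (sL m k l) l') ∧
      c0 m k l w q.1 + c0G m k (sL m k l) (E') l' w q.2 ≡ n
      [MOD Jn m k (sL m k l) l'] := by
    intro q hq
    rw [hS0, mem_filter, mem_product] at hq
    exact hq
  have hsumc : ∀ q ∈ S0, ∀ i,
      (Lg (p i) (b i) (q.1 i) + ((w (Key.J l i (maskJ (preJ m k l i) q.1)) : ℕ) :
        ZMod (p i ^ b i))) +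
      (Lg (p i) (b i) (q.2 i) + ((w (Key.J l' i (maskJ (preJ m k l' i) q.2)) : ℕ) :
        ZMod (p i ^ b i))) = ((n : ℕ) : ZMod (p i ^ b i)) := by
    intro q hq i
    obtain ⟨⟨h1, h2⟩, h3⟩ := hS0m q hq
    exact hcast n i (b i) _ _ _ _ (hcl _ h1 i _ (by have := hbe i; omega))
      (hcl' _ h2 i _ (by have := hbe i; omega)) (h3.of_dvd (pow_dvd_NN p b i))
  have hpreBd : ∀ i, (i ∈ B ∨ d i ≠ 0) → (∀ x y : JF → ℕ,
      (∀ j ∈ B, rkJ m k l j < rkJ m k l i → x j = y j) →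
        ((w (Key.J l i (maskJ (preJ m k l i) x)) : ℕ) : ZMod (p i ^ b i)) =
        ((w (Key.J l i (maskJ (preJ m k l i) y)) : ℕ) : ZMod (p i ^ b i))) ∧
      (∀ x y : JF → ℕ, (∀ j ∈ B, rkJ m k l j < rkJ m k l i → x j = y j) →
        ((w (Key.J l' i (maskJ (preJ m k l' i) x)) : ℕ) : ZMod (p i ^ b i)) =
        ((w (Key.J l' i (maskJ (preJ m k l' i) y)) : ℕ) : ZMod (p i ^ b i))) := by
    intro i hi
    have h1 : preJ m k l i ⊆ B ∧ preJ m k l' i ⊆ B := by
      rcases hi with hi | hi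
      · have := preJ_BJ h0 hl hc hi
        rw [this.1, this.2]
        exact ⟨empty_subset _, empty_subset _⟩
      · exact preJ_mover h0 hl hc hmov hi
    constructor
    · intro x y hxy
      rw [maskJ_congr (fun g hg => hxy g (h1.1 hg) (rkJ_pre hg))]
    · intro x y hxy
      rw [maskJ_congr (fun g hg => hxy g (h1.2 hg) (rkJ_pre' h0 hl hc hg))]
  have hTyc : Ty.card ≤ CJ k (sL m k l) := by
    refine card_PhiB_le (pJ_prime k (sL m k l)) (pJ_ne_two k _) b d B (rkJ m k l)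
      (fun i x => ((w (Key.J l i (maskJ (preJ m k l i) x)) : ℕ) : ZMod (p i ^ b i)))
      (fun i x => ((w (Key.J l' i (maskJ (preJ m k l' i) x)) : ℕ) : ZMod (p i ^ b i)))
      (fun i hi => (hpreBd i hi).1) (fun i hi => (hpreBd i hi).2)
      (fun i => ((n : ℕ) : ZMod (p i ^ b i))) S0 ?_
    intro q hq i
    obtain ⟨⟨h1, h2⟩, h3⟩ := hS0m q hq
    refine ⟨(hXg _ h1 i).1, (hXg' _ h2 i).1, (hXg _ h1 i).2.1, (hXg' _ h2 i).2.1, ?_,
      hsumc q hq i⟩
    intro hiB
    -- a family in `B` does not move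
    have hd0 : d i = 0 := by
      rw [hB] at hiB
      unfold BJ at hiB
      split_ifs at hiB with h
      · rw [mem_singleton] at hiB
        rw [hiB]
        exact h
      · exact absurd hiB (notMem_empty _)
    have hpos : 0 < b i := by
      rw [hB] at hiB
      unfold BJ at hiB
      split_ifs at hiB with h
      · rw [mem_singleton] at hiB
        rw [hiB]
        exact hpos0 _
      · exact absurd hiB (notMem_empty _)
    have ha : aJ m k (sL m k l) l i = b i := by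
      have h4 := aJ_mono m k (sL m k l) i hl
      have h5 := aJ_mono m k (sL m k l) i (lt_ez hm (sL m k l - t) l).le
      have h6 := hbe i
      rw [hd0, add_zero] at h6
      have h7 : aJ m k (sL m k l) (ez m (sL m k l - t) l) i = b i := h6.symm
      have h8 : b i = aJ m k (sL m k l) l' i := rfl
      omega
    constructor
    · rcases (hXg _ h1 i).2.2 with ⟨h4, _⟩ | h4
      · have h5 : aJ m k (sL m k l) l i = 0 := h4
        omega
      · have h5 : (q.1 i) ^ 2 < p i ^ aJ m k (sL m k l) l i := h4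
        rwa [ha] at h5
    · rcases (hXg' _ h2 i).2.2 with ⟨h4, _⟩ | h4
      · have h5 : b i = 0 := h4
        omega
      · exact h4
  -- the number of pairs with a given label
  have hCC : ∀ τ i, ((XJ m k l ×ˢ XJG m k (sL m k l) l').filter
      (fun q => c0 m k l w q.1 + c0G m k (sL m k l) (E') l' w q.2 ≡ n
        [MOD Jn m k (sL m k l) l'] ∧ PhiB p b d B q = τ ∧ labJ p b u q = i)).card ≤
      CJ k (sL m k l) := by
    intro τ i
    refine card_lab_le (pJ_prime k (sL m k l)) (pJ_ne_two k _) b u (rkJ m k l)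
      (fun i x => ((w (Key.J l i (maskJ (preJ m k l i) x)) : ℕ) : ZMod (p i ^ b i)))
      (fun i x => ((w (Key.J l' i (maskJ (preJ m k l' i) x)) : ℕ) : ZMod (p i ^ b i)))
      (fun i x y hxy => by
        rw [maskJ_congr (fun g hg => hxy g (rkJ_pre hg))])
      (fun i x y hxy => by
        rw [maskJ_congr (fun g hg => hxy g (rkJ_pre' h0 hl hc hg))])
      (fun i => ((n : ℕ) : ZMod (p i ^ b i))) i _ ?_ ?_
    · intro q hq j
      rw [mem_filter, mem_product] at hq
      have hqS : q ∈ S0 := by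
        rw [hS0, mem_filter, mem_product]
        exact ⟨hq.1, hq.2.1⟩
      exact ⟨(hXg _ hq.1.1 j).1, (hXg' _ hq.1.2 j).1, (hXg _ hq.1.1 j).2.1,
        (hXg' _ hq.1.2 j).2.1, hquot _ hq.1.1 _ hq.1.2 j, hsumc q hqS j⟩
    · intro q hq
      rw [mem_filter] at hq
      exact hq.2.2.2
  refine ⟨Ty, PhiB p b d B, labJ p b u, θ, hTyc, hθ, ?_, hCC⟩
  intro q hq hqn
  rw [mem_product] at hq
  have hqS : q ∈ S0 := by
    rw [hS0, mem_filter, mem_product]
    exact ⟨hq, hqn⟩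
  have h1 := hθ2 (PhiB p b d B q) q.1 hq.1 q.2 hq.2 hqn rfl
  exact ⟨mem_image_of_mem _ hqS, h1.1, h1.2⟩

end Pool.Agent.Helper44.T5b
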