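import Pool.Agent.Helper44.T5b.Win

/-!
# T5b: the families which move between a state and a common front of a static level
-/

set_option autoImplicit false

namespace Pool.Agent.Helper44.T5b

open Finset
open Pool.Agent.Helper5.ET hiding Key Mk AA Rp keysOf el ext
open Pool.Agent.Helper27.T4
open Pool.Agent.Helper27.T5b Pool.Agent.Helper37.T5b
open Pool.Agent.Helper30.T5b hiding pz_prime pz_inj
open Pool.Agent.Helper84.T5b

/-- the number of split levels at a position is at most the number when the next era begins -/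
theorem sv_le_lv_next {m : ℕ} (hm : 0 < m) (k y : ℕ) : sv m k y ≤ lv m k (era y + 1) := by
  rw [lv_succ hm]
  unfold sv
  split_ifs with h1 h2 h3 <;> first | omega | (exfalso; tauto)

/-- a growing main family has a main digit in the interval -/
theorem exists_main_digit {m k s l' e : ℕ} {g : Fin 3}
    (h : aJ m k s e (Sum.inl g) - aJ m k s l' (Sum.inl g) ≠ 0) :
    ∃ z, mL m k l' ≤ z ∧ pos (ins m k) z < e ∧ own z = g := by
  rcases Nat.lt_or_ge e l' with hle | hle
  · have := aJ_mono m k s (Sum.inl g) hle.le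
    omega
  have h1 : ct (ins m k) own (ex m k) (Sum.inl g) l' < ct (ins m k) own (ex m k) (Sum.inl g) e := by
    have h2 : aJ m k s e (Sum.inl g) = ct (ins m k) own (ex m k) (Sum.inl g) e := rfl
    have h3 : aJ m k s l' (Sum.inl g) = ct (ins m k) own (ex m k) (Sum.inl g) l' := rfl
    omega
  obtain ⟨i, hi1, hi2, hi3⟩ := (ct_lt_iff _ hle).1 h1
  unfold ow at hi3
  split_ifs at hi3 with h4
  · refine ⟨l1 (ins m k) i, ?_, ?_, Sum.inl.inj hi3⟩
    · exact l1_le_iff.2 (h4 ▸ hi1)
    · rw [← h4]
      exact hi2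

/-- **one era**: all main digits between the lower state and a common front of a static level lie in
the era of the lower state (the buffer digits in front of a border are more than the lead) -/
theorem one_era {m k l l' t : ℕ} (hm : 0 < m) (h0 : bb 0 ≤ mL m k l')
    (hs : sL m k l' = sL m k l) (ht1 : 1 ≤ t) (ht : t ≤ sL m k l)
    (hfr : ez m (sL m k l - t) l' = ez m (sL m k l - t) l) {z : ℕ} (hz : mL m k l' ≤ z)
    (hze : pos (ins m k) z < ez m (sL m k l - t) l) : era z = era (mL m k l') := by
  by_contra hne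
  have h1 : era (mL m k l') < era z := lt_of_le_of_ne (Pool.Agent.Helper27.T4.era_mono hz) (Ne.symm hne)
  set j := era (mL m k l') + 1 with hj
  have h2 : mL m k l' < bb j := (era_spec _ h0).2
  have h3 : bb j ≤ z := (bb_strictMono.monotone h1).trans (era_spec z (h0.trans hz)).1
  have h4 : pos (ins m k) (bb j) ≤ pos (ins m k) z := (pos_strictMono _).monotone h3
  rw [pos_eq, ins_bb hm] at h4
  have h5 : l' ≤ pos (ins m k) (mL m k l') := le_pos_l1 _ _
  have h6 : beg (ins m k) (mL m k l' + 1) = pos (ins m k) (mL m k l') + 1 := beg_succ _ _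
  have h7 : beg (ins m k) (mL m k l' + 1) ≤ beg (ins m k) (bb j) :=
    (beg_strictMono _).monotone h2
  have h8 : sL m k l ≤ lv m k j := by
    rw [← hs]
    exact sv_le_lv_next hm k _
  have h9 := two_ez_le m (sL m k l - t) l'
  rw [hfr] at h9
  have h10 : PZ m (sL m k l - t) ≤ PZ m (lv m k j - 1) := PZ_mono m (by omega)
  have h11 : RB m (lv m k j) = 9 * PZ m (lv m k j - 1) := rfl
  omega

/-- the head of the order at the upper state -/
noncomputable def hd (m k l : ℕ) : Fin 3 := fam (ordK (mL m k l))

theorem pre_hd (m k l : ℕ) : pre (mL m k l) (hd m k l) = ∅ := pre_head _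

theorem pre_hd' {m k l l' : ℕ} (h0 : bb 0 ≤ mL m k l') (hl : l' ≤ l)
    (hc : 60 * (mL m k l - mL m k l') ≤ mL m k l) : pre (mL m k l') (hd m k l) = ∅ := by
  unfold hd
  rcases phase_cases h0 (l1_mono _ hl) hc with h | h | h | h
  · rw [show ordK (mL m k l) = ordK (mL m k l') from h.2.1.symm]
    exact pre_head _
  · rw [show ordK (mL m k l) = ordK (mL m k l') from h.2.2.1.trans h.2.1.symm]
    exact pre_head _
  · rw [show ordK (mL m k l) = ordK (mL m k l') + 1 from by
      rw [show ordK (mL m k l') = era (mL m k l) from h.2.1]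
      exact h.2.2.1]
    exact pre_third_iso h.2.2.2.1
  · rw [show ordK (mL m k l) = ordK (mL m k l') from h.2.2.1.trans h.2.1.symm]
    exact pre_head _

/-- the keys of the family of the era of the lower state -/
theorem pre_mover {m k l l' : ℕ} (h0 : bb 0 ≤ mL m k l') (hl : l' ≤ l)
    (hc : 60 * (mL m k l - mL m k l') ≤ mL m k l) :
    pre (mL m k l) (fam (era (mL m k l'))) ⊆ {hd m k l} ∧
      pre (mL m k l') (fam (era (mL m k l'))) ⊆ {hd m k l} := by
  have two : ∀ y K : ℕ, ordK y = K + 1 → pre y (fam K) = {fam (ordK y)} := by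
    intro y K h
    have h1 := pre_second y
    have h2 : fam (ordK y + 2) = fam K := by
      rw [h, show K + 1 + 2 = K + 3 from rfl, fam_add_three]
    rwa [h2] at h1
  have zero : ∀ y K : ℕ, ordK y = K → pre y (fam K) = ∅ := by
    intro y K h
    rw [← h]
    exact pre_head y
  unfold hd
  set y := mL m k l with hy
  set y' := mL m k l' with hy'
  rcases phase_cases (l := y) (l' := y') h0 (l1_mono (ins m k) hl) hc with h | h | h | h
  · obtain ⟨h1, h2, -⟩ := h
    rcases ordK_cases y' with h3 | h3
    · rw [zero y' _ h3, zero y _ (h2 ▸ h3)]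
      exact ⟨empty_subset _, empty_subset _⟩
    · rw [two y' _ h3, two y _ (h2 ▸ h3), h2]
      exact ⟨Subset.rfl, Subset.rfl⟩
  · obtain ⟨h1, h2, h3, -⟩ := h
    rw [zero y' _ (h2.trans h1.symm), zero y _ (h3.trans h1.symm)]
    exact ⟨empty_subset _, empty_subset _⟩
  · obtain ⟨h1, h2, h3, -⟩ := h
    rw [zero y' _ (h2.trans h1.symm), two y _ (by rw [h3, h1])]
    exact ⟨Subset.rfl, empty_subset _⟩
  · obtain ⟨h1, h2, h3, -⟩ := h
    rw [two y' _ (h2.trans h1.symm), two y _ (h3.trans h1.symm), h2, h3]
    exact ⟨Subset.rfl, Subset.rfl⟩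

/-- the key families of the movers -/
noncomputable def BJ (m k l : ℕ) (d : JF → ℕ) : Finset JF :=
  if d (Sum.inl (hd m k l)) = 0 then {Sum.inl (hd m k l)} else ∅

/-- the families in `BJ` have no keys -/
theorem preJ_BJ {m k l l' : ℕ} (h0 : bb 0 ≤ mL m k l') (hl : l' ≤ l)
    (hc : 60 * (mL m k l - mL m k l') ≤ mL m k l) {d : JF → ℕ} {i : JF} (hi : i ∈ BJ m k l d) :
    preJ m k l i = ∅ ∧ preJ m k l' i = ∅ := by
  unfold BJ at hi
  split_ifs at hi with h
  · rw [mem_singleton] at hi
    subst hi
    constructor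
    · show (pre (mL m k l) (hd m k l)).image Sum.inl = ∅
      rw [pre_hd, image_empty]
    · show (pre (mL m k l') (hd m k l)).image Sum.inl = ∅
      rw [pre_hd' h0 hl hc, image_empty]
  · exact absurd hi (notMem_empty _)

/-- the keys of the movers lie in `BJ` -/
theorem preJ_mover {m k l l' : ℕ} (h0 : bb 0 ≤ mL m k l') (hl : l' ≤ l)
    (hc : 60 * (mL m k l - mL m k l') ≤ mL m k l) {d : JF → ℕ}
    (hd0 : ∀ g : Fin 3, d (Sum.inl g) ≠ 0 → g = fam (era (mL m k l'))) {i : JF} (hi : d i ≠ 0) :
    preJ m k l i ⊆ BJ m k l d ∧ preJ m k l' i ⊆ BJ m k l d := by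
  rcases i with g | i
  · have hg := hd0 g hi
    have h1 := pre_mover h0 hl hc
    rw [← hg] at h1
    unfold BJ
    split_ifs with h
    · constructor
      · show (pre (mL m k l) g).image Sum.inl ⊆ _
        exact (image_subset_image h1.1).trans (by rw [image_singleton])
      · show (pre (mL m k l') g).image Sum.inl ⊆ _
        exact (image_subset_image h1.2).trans (by rw [image_singleton])
    · have hh := hd0 _ h
      rw [← hg] at hh
      constructor
      · show (pre (mL m k l) g).image Sum.inl ⊆ _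
        rw [← hh, pre_hd, image_empty]
      · show (pre (mL m k l') g).image Sum.inl ⊆ _
        rw [← hh, pre_hd' h0 hl hc, image_empty]
  · exact ⟨empty_subset _, empty_subset _⟩

end Pool.Agent.Helper44.T5b
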