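import Pool.Agent.Helper44.T5b.NearRSOne
import Pool.Agent.Helper33.T5b.OkN

/-!
# T5b: the label block of a pair of states across SPLIT

`near_RS`: as `near_R`, for `sL m k l = sL m k l' + 1`.  The static level `0` of the upper state and
the newborn triple of the lower state are a part of the label level; the outer key of the lower
state is a part of the contexts.
-/

set_option autoImplicit false

namespace Pool.Agent.Helper44.T5b

open Finset
open Pool.Agent.Helper5.ET hiding Key Mk AA Rp keysOf el ext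
open Pool.Agent.Helper27.T4
open Pool.Agent.Helper27.T5b hiding FF_pos dvd_cs cs_lt QQ_eq_NN c0_lt Jn_pos
open Pool.Agent.Helper37.T5b
open Pool.Agent.Helper30.T5b hiding pz_prime pz_inj
open Pool.Agent.Helper22.HW Pool.Agent.Helper57.T5
open Pool.Agent.Helper39.T5 Pool.Agent.Helper50.T5
open Pool.Agent.Helper84.T5b Pool.Agent.Helper44.T5
open Pool.Agent.Helper48.T5b (SplitP)
open Pool.Agent.Helper45.T5b (OK)
open Pool.Agent.Helper22.NEARs (ZwO)
open Pool.Agent.Helper83.T5b (CB CB_pos)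

open Classical in
/-- the outer keys of the hits -/
noncomputable def On (m k l l' r : ℕ) (w : Key → ℕ) (n : ℕ) : Finset (JF → ℕ) :=
  ((XJ m k l ×ˢ XJ m k l').filter (fun q => c0 m k l w q.1 + c0 m k l' w q.2 ≡ n
    [MOD Jn m k (sL m k l) l'])).image (fun q => okey m k l' r q.2)

theorem card_On {m k l l' r : ℕ} (hm : 0 < m) (h : SplitP m k (sL m k l') l' l)
    (hkey : ¬ keyed m k (mL m k l')) (w : Key → ℕ) (n : ℕ) :
    (On m k l l' r w n).card ≤ CJ k (sL m k l) := by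
  rcases Nat.eq_zero_or_pos r with hr | hr
  · rw [hr]
    exact Pool.Agent.Helper33.T5b.okey_card_CJ hm h hkey w n
  · have h1 : On m k l l' r w n ⊆ {0} := by
      intro o ho
      unfold On at ho
      rw [mem_image] at ho
      obtain ⟨q, _, rfl⟩ := ho
      rw [mem_singleton]
      exact okey_pos (by omega) _
    refine (card_le_card h1).trans ?_
    rw [card_singleton]
    have h2 := Pool.Agent.Helper33.T5b.le_CJ k (sL m k l)
    omega

theorem On_sub {m k l l' r : ℕ} {w : Key → ℕ} {n : ℕ} : ∀ o ∈ On m k l l' r w n,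
    o ∈ OK m k l' r := by
  intro o ho
  unfold On at ho
  rw [mem_image] at ho
  obtain ⟨q, hq, rfl⟩ := ho
  unfold OK
  rw [mem_image]
  exact ⟨q.2, (mem_product.1 (mem_filter.1 hq).1).2, rfl⟩

/-- a union over finitely many lower sets -/
theorem card_union_le {ω : Type*} {A A' B : Finset ℕ} {O : Finset ω} {B' : ω → Finset ℕ}
    {n C K : ℕ}
    (h : ∀ a ∈ A, ∀ a' ∈ A', a + a' = n → ∃ o ∈ O, a ∈ B ∧ a' ∈ B' o)
    (hone : ∀ o ∈ O, ((B ×ˢ B' o).filter (fun q => q.1 + q.2 = n)).card ≤ C)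
    (hO : O.card ≤ K) : ((A ×ˢ A').filter (fun q => q.1 + q.2 = n)).card ≤ K * C := by
  classical
  refine le_trans (card_le_card (t := O.biUnion (fun o =>
    (B ×ˢ B' o).filter (fun q => q.1 + q.2 = n))) ?_)
    (card_biUnion_le.trans ((Finset.sum_le_card_nsmul _ _ _ hone).trans ?_))
  · rintro ⟨a, a'⟩ ha
    rw [mem_filter, mem_product] at ha
    obtain ⟨o, ho, h1, h2⟩ := h a ha.1.1 a' ha.1.2 ha.2
    rw [mem_biUnion]
    exact ⟨o, ho, mem_filter.2 ⟨mem_product.2 ⟨h1, h2⟩, ha.2⟩⟩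
  · rw [smul_eq_mul]
    exact Nat.mul_le_mul_right _ hO

/-- the elements of the upper state with the first static level in the label -/
noncomputable def BU (m k l r : ℕ) (w : Key → ℕ) : Finset ℕ :=
  scaleO (XJ m k l ×ˢ Ys m k l 0)
    (fun q => c0 m k l w q.1 + cs m k l 0 w (okey m k l 0 q.1) q.2) r
    (fun u => Ys m k l (u + 1)) (fun q u y => cs m k l (u + 1) w (okey m k l (u + 1) q.1) y)
    (Zw m k l (r + 1) w)

open Classical in
/-- the elements of the lower state with the outer key `o` -/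
noncomputable def BL (m k l' r : ℕ) (w : Key → ℕ) (o : JF → ℕ) : Finset ℕ :=
  scaleO ((XJ m k l').filter (fun x' => okey m k l' r x' = o)) (c0 m k l' w) r (Ys m k l')
    (fun x t y => cs m k l' t w (okey m k l' t x) y) (ZwO m k l' r o w)

theorem AA_sub_BU {m k l r : ℕ} {w : Key → ℕ} (ht : r + 1 ≤ rL m k l) :
    AA m k l w ⊆ BU m k l r w :=
  (AA_split ht (by omega)).trans (scaleO_combine _ _ _ _ _ _)

/-- a hit belongs to an outer key of `On` -/
theorem hit_On {m k l l' r : ℕ} (hm : 0 < m) (h : SplitP m k (sL m k l') l' l)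
    (hr : r ≤ rL m k l') {w : Key → ℕ} {n a a' : ℕ}
    (ha : a ∈ AA m k l w) (ha' : a' ∈ AA m k l' w) (hn : a + a' = n) :
    ∃ o ∈ On m k l l' r w n, a' ∈ BL m k l' r w o := by
  obtain ⟨x, hx, ⟨z, hz⟩, -⟩ := AA_splitO hm (Nat.zero_le _) ha
  obtain ⟨x', hx', ⟨z', hz'⟩, hmem'⟩ := AA_splitO hm hr ha'
  refine ⟨okey m k l' r x', ?_, hmem'⟩
  unfold On
  rw [mem_image]
  refine ⟨(x, x'), mem_filter.2 ⟨mem_product.2 ⟨hx, hx'⟩, ?_⟩, rfl⟩
  have hJw0 : Jn m k (sL m k l') l' = Jn m k (sL m k l) l' * QT m k (sL m k l) := by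
    have h1 := (h.win l' le_rfl (h.le.trans (Nat.le_add_right _ _))).Jn_split hm
    rw [← h.s1] at h1
    exact h1
  obtain ⟨e1, he1⟩ := Jn_dvd m k (sL m k l) h.le
  rw [he1] at hz
  rw [hJw0] at hz'
  have h3 : n = (c0 m k l w x + c0 m k l' w x') +
      Jn m k (sL m k l) l' * (e1 * z + QT m k (sL m k l) * z') := by
    rw [← hn, hz, hz']
    ring
  show c0 m k l w x + c0 m k l' w x' ≡ n [MOD Jn m k (sL m k l) l']
  rw [h3]
  have h4 : (c0 m k l w x + c0 m k l' w x') +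
      Jn m k (sL m k l) l' * (e1 * z + QT m k (sL m k l) * z') ≡
      (c0 m k l w x + c0 m k l' w x') + 0 [MOD Jn m k (sL m k l) l'] :=
    Nat.ModEq.add_left _ ((Nat.modEq_zero_iff_dvd).2 (dvd_mul_right _ _))
  rw [add_zero] at h4
  exact h4.symm

/-- **the label block across SPLIT** -/
theorem near_RS {m k l l' r : ℕ} (hm : 0 < m) (h0 : bb 0 ≤ mL m k l')
    (h : SplitP m k (sL m k l') l' l) (hkey : ¬ keyed m k (mL m k l'))
    (ht : r + 1 ≤ rL m k l) (hfr : ez m (sL m k l - (r + 1)) l' = ez m (sL m k l - (r + 1)) l)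
    (hc : 60 * (mL m k l - mL m k l') ≤ mL m k l)
    (hpos0 : ∀ f : Fin 3, 0 < aJ m k (sL m k l) l' (Sum.inl f))
    (hsz : ∀ u < r + 1, 2 * (FF m k l u * LL (QQ m k (sL m k l)) u) ≤
      FF m k l (u + 1) * LL (QQ m k (sL m k l)) (u + 1))
    (hsz' : ∀ u < r, 2 * (FF m k l' u * LL (QQ m k (sL m k l')) u) ≤
      FF m k l' (u + 1) * LL (QQ m k (sL m k l')) (u + 1))
    (w : Key → ℕ) {R : ℕ} (n : ℕ)
    (hR : ∀ o ∈ OK m k l' r, ∀ θ ∈ Theta (pJ k (sL m k l)) (dJ m k l l' (r + 1)),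
      ∀ γ N Qi : ℕ, LL (QQ m k (sL m k l)) (r + 1) * Qi ≡ 1 [MOD DJ m k l l' (r + 1)] →
      ∀ κ₂ < 4,
      cN (Zw m k l (r + 1) w) (ZwO m k l' r o w) (IJ m k l l')
        (Jn m k (sL m k l) l' * LL (QQ m k (sL m k l)) (r + 1)) (DJ m k l l' (r + 1))
        (fun i => Qi * (clJ m k l l' (r + 1) θ i + γ)) κ₂
        (Jn m k (sL m k l) l' * LL (QQ m k (sL m k l)) (r + 1) * N) ≤ R) :
    Rp m k l l' w n ≤ CJ k (sL m k l) * (CJ k (sL m k l) *
      ((CJ k (sL m k l) * CB k * CB k ^ r) * (4 * R))) := by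
  have N := spNum hm h ht hfr
  have hrl' : rL m k l' = k := h.rL'
  have hrl : rL m k l = k + 1 := h.rL1
  have hone : ∀ o ∈ On m k l l' r w n,
      ((BU m k l r w ×ˢ BL m k l' r w o).filter (fun q => q.1 + q.2 = n)).card ≤
      CJ k (sL m k l) * ((CJ k (sL m k l) * CB k * CB k ^ r) * (4 * R)) := by
    intro o ho
    refine near_RS_one hm h0 h ht rfl rfl rfl rfl N hc hpos0 hsz hsz' w n o ?_
    intro θ hθ γ N' Qi hQi κ₂ hκ
    have h1 := hR o (On_sub o ho) θ hθ γ N' Qi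
    rw [N.LLq] at h1
    exact h1 hQi κ₂ hκ
  refine card_union_le (fun a ha a' ha' hn => ?_) hone (card_On hm h hkey w n)
  obtain ⟨o, ho, hm'⟩ := hit_On hm h (show r ≤ rL m k l' by omega) ha ha' hn
  exact ⟨o, ho, AA_sub_BU ht ha, hm'⟩

end Pool.Agent.Helper44.T5b
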