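import Pool.Agent.Helper44.T5b.NearRS
import Pool.Agent.Helper22.NEARb.NearR

/-!
# T5b: the label block across SPLIT for late states

`nearRS` is line S1 of the block NEARs.
-/

set_option autoImplicit false

namespace Pool.Agent.Helper44.T5b

open Finset
open Pool.Agent.Helper5.ET hiding Key Mk AA Rp keysOf el ext
open Pool.Agent.Helper27.T4
open Pool.Agent.Helper27.T5b hiding FF_pos dvd_cs cs_lt QQ_eq_NN c0_lt Jn_pos
open Pool.Agent.Helper37.T5b
open Pool.Agent.Helper30.T5b hiding pz_prime pz_inj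
open Pool.Agent.Helper22.HW Pool.Agent.Helper57.T5
open Pool.Agent.Helper39.T5 Pool.Agent.Helper50.T5
open Pool.Agent.Helper84.T5b Pool.Agent.Helper44.T5
open Pool.Agent.Helper48.T5b (SplitP)
open Pool.Agent.Helper45.T5b (OK)
open Pool.Agent.Helper22.NEARs (ZwO)
open Pool.Agent.Helper83.T5b (CB CB_pos)

/-- the constant of the reduction across SPLIT -/
noncomputable def CRS (k : ℕ) : ℕ := (2 * (1000039 + BP k)) ^ 7 * ((2 * (1000039 + BP k)) ^ 7 *
  ((2 * (1000039 + BP k)) ^ 7 * CB k ^ (k + 2) * 4))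

/-- **the label block across SPLIT for late states** -/
theorem near_RS_late {m : ℕ} (hm : 0 < m) (k : ℕ) : ∃ l0, ∀ l l' r, l0 ≤ l' → l' ≤ l →
    Near m k l' l → Split m k l' l → r + 1 ≤ rL m k l →
    ez m (sL m k l - (r + 1)) l' = ez m (sL m k l - (r + 1)) l → ∀ (w : Key → ℕ) (R n : ℕ),
    (∀ o ∈ OK m k l' r, ∀ θ ∈ Theta (pJ k (sL m k l)) (dJ m k l l' (r + 1)),
      ∀ γ N Qi : ℕ, LL (QQ m k (sL m k l)) (r + 1) * Qi ≡ 1 [MOD DJ m k l l' (r + 1)] →
      ∀ κ₂ < 4,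
      cN (Zw m k l (r + 1) w) (ZwO m k l' r o w) (IJ m k l l')
        (Jn m k (sL m k l) l' * LL (QQ m k (sL m k l)) (r + 1)) (DJ m k l l' (r + 1))
        (fun i => Qi * (clJ m k l l' (r + 1) θ i + γ)) κ₂
        (Jn m k (sL m k l) l' * LL (QQ m k (sL m k l)) (r + 1) * N) ≤ R) →
    Rp m k l l' w n ≤ CRS k * R := by
  obtain ⟨l0, h0⟩ := exists_conds hm k
  obtain ⟨l1', h1'⟩ := Pool.Agent.Helper33.T5b.exists_splitP hm k
  obtain ⟨l2', h2'⟩ := Pool.Agent.Helper33.T5b.exists_unkeyed hm k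
  refine ⟨l0 + l1' + l2', fun l l' r hl' hl hN hS ht hfr w R n hR => ?_⟩
  obtain ⟨a1, a2, a3, a4⟩ := h0 l' (by omega)
  obtain ⟨_, b2, _, _⟩ := h0 l (by omega)
  have hsp := h1' l l' (by omega) hl hN hS
  have hun := h2' l l' (by omega) hl hN hS
  have hs : sL m k l = sL m k l' + 1 := hsp.s1
  have hrl : rL m k l = k + 1 := hsp.rL1
  have hrl' : rL m k l' = k := hsp.rL'
  have hc : 60 * (mL m k l - mL m k l') ≤ mL m k l := by
    have h1 := dist_of_common hm hl hfr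
    have h2 : mL m k l - mL m k l' ≤ l - l' := l1_sub_le' _ _ _
    have h3 := PZ_mul hm (sL m k l - (r + 1))
    have h4 : SS m (sL m k l - (r + 1)) ≤ SS m (sL m k l' + 1) := SS_mono m (by omega)
    have h5 : mL m k l' ≤ mL m k l := l1_mono _ hl
    omega
  refine (near_RS hm a1 hsp hun ht hfr hc (fun f => a4 _ f) (fun u hu => b2 u (by omega))
    (fun u hu => a2 u (by omega)) w n hR).trans ?_
  have e1 : CB k * CB k ^ r ≤ CB k ^ (k + 2) := by
    rw [← pow_succ']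
    exact Nat.pow_le_pow_right (CB_pos k) (by omega)
  have e2 := Pool.Agent.Helper22.NEARb.CJ_le k (sL m k l)
  unfold CRS
  generalize (2 * (1000039 + BP k)) ^ 7 = X at *
  generalize CB k ^ (k + 2) = Y at *
  calc CJ k (sL m k l) * (CJ k (sL m k l) * ((CJ k (sL m k l) * CB k * CB k ^ r) * (4 * R)))
      = CJ k (sL m k l) * (CJ k (sL m k l) * ((CJ k (sL m k l) * (CB k * CB k ^ r)) * (4 * R))) := by
        ring
    _ ≤ X * (X * ((X * Y) * (4 * R))) := by gcongr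
    _ = X * (X * (X * Y * 4)) * R := by ring

/-- **S1** of the block NEARs -/
theorem nearRS (m k : ℕ) (hm : 2 ≤ m) : Pool.Agent.Helper22.NEARs.NearRS m k := by
  obtain ⟨l0, h0⟩ := near_RS_late (m := m) (by omega) k
  refine ⟨CRS k, l0, ?_⟩
  intro t l' l hl' h w R hR n
  obtain ⟨r, rfl⟩ : ∃ r, t = r + 1 := ⟨t - 1, by have := h.t1; omega⟩
  have htr := h.tr
  refine h0 l l' r hl' h.le h.near h.split htr.le h.com w R n ?_
  intro o ho θ hθ γ N Qi' hQi κ₂ hκ
  have hD : 0 < DJ m k l l' (r + 1) := by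
    unfold DJ NN
    exact Finset.prod_pos (fun i _ => pow_pos (pJ_prime k _ i).pos _)
  have : NeZero (DJ m k l l' (r + 1)) := ⟨hD.ne'⟩
  have h1 := hR (o, θ, γ % DJ m k l l' (r + 1), κ₂, N) ⟨ho, hθ, Nat.mod_lt _ hD, hκ⟩
  refine le_trans (le_of_eq ?_) h1
  unfold Pool.Agent.Helper22.NEARs.cNx Pool.Agent.Helper22.NEARs.bm
  refine cN_congr (fun i => ?_)
  unfold Pool.Agent.Helper22.NEARs.clx
  simp only
  refine Nat.ModEq.mul ?_ (Nat.ModEq.add_left _ (Nat.mod_modEq _ _).symm)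
  -- the two inverses agree
  rw [← ZMod.natCast_eq_natCast_iff] at hQi ⊢
  push_cast at hQi
  unfold Pool.Agent.Helper22.NEARs.Qi
  rw [ZMod.natCast_zmod_val]
  exact (ZMod.inv_eq_of_mul_eq_one _ _ _ hQi).symm

end Pool.Agent.Helper44.T5b
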