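import Pool.Agent.Helper44.T5b.SplitSets
import Pool.Agent.Helper44.T5b.Comb

/-!
# T5b: the label block of a pair of states across SPLIT, the outer key of the lower state fixed
-/

set_option autoImplicit false

namespace Pool.Agent.Helper44.T5b

open Finset
open Pool.Agent.Helper5.ET hiding Key Mk AA Rp keysOf el ext
open Pool.Agent.Helper27.T4
open Pool.Agent.Helper27.T5b hiding FF_pos dvd_cs cs_lt QQ_eq_NN c0_lt Jn_pos
open Pool.Agent.Helper37.T5b
open Pool.Agent.Helper30.T5b hiding pz_prime pz_inj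
open Pool.Agent.Helper22.HW Pool.Agent.Helper57.T5
open Pool.Agent.Helper39.T5 Pool.Agent.Helper50.T5
open Pool.Agent.Helper84.T5b Pool.Agent.Helper44.T5
open Pool.Agent.Helper48.T5b (SplitP gS gS_cast cT)
open Pool.Agent.Helper22.NEARs (ZwO)
open Pool.Agent.Helper39.T5b (mem_ZwO unit_win)
open Pool.Agent.Helper83.T5b (CB CB_pos dec_gen dec_cast)

/-- the numbers of a pair across SPLIT with the common front `r + 1`; `J`, `Q`, `D`, `Q1` are
`Jn m k (sL m k l) l'`, `QT m k (sL m k l)`, `DJ`, the moduli of the levels `≥ 1` -/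
structure SpNum (m k l l' r J Q D : ℕ) (Q1 : ℕ → ℕ) : Prop where
  Jp : 0 < J
  Qp : 0 < Q
  Dp : 0 < D
  Q1p : ∀ u, 0 < Q1 u
  LLq : ∀ u, LL (QQ m k (sL m k l)) (u + 1) = Q * LL Q1 u
  LLq' : ∀ u, LL (QQ m k (sL m k l')) u = LL Q1 u
  Ft : Jn m k (sL m k l) (ef m k l (r + 1)) = J * D
  J0 : Jn m k (sL m k l') l' = J * Q
  Fr : FF m k l (r + 1) = J * D
  Fr' : FF m k l' r = J * D * Q
  Fd : ∀ u ≤ r + 1, J * D ∣ FF m k l u
  Fd' : ∀ u ≤ r, J * D * Q ∣ FF m k l' u
  E' : ef m k l (r + 1) ≤ ef m k l' 0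
  E'd : J * D ∣ Jn m k (sL m k l) (ef m k l' 0)
  Jd : J ∣ Jn m k (sL m k l) l

theorem LL_succ_zero (Q : ℕ → ℕ) (t : ℕ) :
    LL Q (t + 1) = Q 0 * LL (fun i => Q (i + 1)) t := by
  unfold LL
  rw [Finset.prod_range_succ']
  ring

theorem spNum {m k l l' r : ℕ} (hm : 0 < m) (h : SplitP m k (sL m k l') l' l)
    (ht : r + 1 ≤ rL m k l) (hfr : ez m (sL m k l - (r + 1)) l' = ez m (sL m k l - (r + 1)) l) :
    SpNum m k l l' r (Jn m k (sL m k l) l') (QT m k (sL m k l)) (DJ m k l l' (r + 1))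
      (fun u => QQ m k (sL m k l) (u + 1)) := by
  have hS : sL m k l = sL m k l' + 1 := h.s1
  have hrl : rL m k l = k + 1 := h.rL1
  have hks := h.ks
  have hll := h.le
  have hlt : l' ≤ ef m k l (r + 1) := hll.trans (lt_ez hm _ l).le
  have hbe : ∀ i, aJ m k (sL m k l) l' i + dJ m k l l' (r + 1) i =
      aJ m k (sL m k l) (ef m k l (r + 1)) i :=
    fun i => by
      have h1 := aJ_mono m k (sL m k l) i hlt
      simp only [dJ]
      omega
  have hFt : Jn m k (sL m k l) (ef m k l (r + 1)) =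
      Jn m k (sL m k l) l' * DJ m k l l' (r + 1) := by
    unfold Jn DJ
    rw [← NN_add]
    congr 1
    funext i
    exact (hbe i).symm
  have hJw : ∀ u, Jn m k (sL m k l') (ef m k l' u) =
      Jn m k (sL m k l) (ef m k l' u) * QT m k (sL m k l) := by
    intro u
    have h1 := (h.win_ef' hm u).Jn_split hm
    rw [← hS] at h1
    exact h1
  have hJw0 : Jn m k (sL m k l') l' = Jn m k (sL m k l) l' * QT m k (sL m k l) := by
    have h1 := (h.win l' le_rfl (h.le.trans (Nat.le_add_right _ _))).Jn_split hm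
    rw [← hS] at h1
    exact h1
  have hef' : ∀ u ≤ r, ef m k l (r + 1) ≤ ef m k l' u := by
    intro u hu
    have h1 : ef m k l' u = ez m (sL m k l' - u) l' := rfl
    have h2 : ef m k l (r + 1) = ez m (sL m k l - (r + 1)) l := rfl
    rw [h1, h2, ← hfr]
    exact ez_le hm (show sL m k l - (r + 1) ≤ sL m k l' - u by omega) l'
  have hefr : ef m k l' r = ef m k l (r + 1) := by
    have h1 : ef m k l' r = ez m (sL m k l' - r) l' := rfl
    have h2 : ef m k l (r + 1) = ez m (sL m k l - (r + 1)) l := rfl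
    rw [h1, h2, ← hfr]
    congr 1
    omega
  have hef : ∀ u ≤ r + 1, ef m k l (r + 1) ≤ ef m k l u := fun u hu =>
    ez_le hm (show sL m k l - (r + 1) ≤ sL m k l - u by omega) l
  refine ⟨Jn_pos _ _ _ _, QT_pos _ _ _, ?_, fun u => QQ_pos _ _ _ _, fun u => LL_succ_zero _ u,
    ?_, hFt, hJw0, hFt, ?_, ?_, ?_, hef' 0 (Nat.zero_le _), ?_, Jn_dvd m k _ hll⟩
  · unfold DJ NN
    exact Finset.prod_pos (fun i _ => pow_pos (pJ_prime k _ i).pos _)
  · intro u
    unfold LL
    refine Finset.prod_congr rfl (fun i _ => ?_)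
    show QT m k (sL m k l' - i) = QT m k (sL m k l - (i + 1))
    congr 1
    omega
  · show Jn m k (sL m k l') (ef m k l' r) = _
    rw [hJw, hefr, hFt]
  · intro u hu
    rw [← hFt]
    exact Jn_dvd m k _ (hef u hu)
  · intro u hu
    rw [← hFt]
    show _ ∣ Jn m k (sL m k l') (ef m k l' u)
    rw [hJw]
    exact Nat.mul_dvd_mul_right (Jn_dvd m k _ (hef' u hu)) _
  · rw [← hFt]
    exact Jn_dvd m k _ (hef' 0 (Nat.zero_le _))

/-- the sizes of the upper state -/
theorem size_up {m k l l' r J Q D : ℕ} {Q1 : ℕ → ℕ} (N : SpNum m k l l' r J Q D Q1)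
    (hsz : ∀ u < r + 1, 2 * (FF m k l u * LL (QQ m k (sL m k l)) u) ≤
      FF m k l (u + 1) * LL (QQ m k (sL m k l)) (u + 1)) (w : Key → ℕ) (x : JF → ℕ)
    (y0 : Fin 3 → ℕ) (y : Fin r → Fin 3 → ℕ) :
    (c0 m k l w x + cs m k l 0 w (okey m k l 0 x) y0) +
      ∑ u : Fin r, cs m k l (u + 1) w (okey m k l (u + 1) x) (y u) <
      2 * (J * Q * D * LL Q1 r) := by
  have h1 := tower_size (fun t => FF m k l t * LL (QQ m k (sL m k l)) t) (c0 m k l w x)
    (by simpa [LL_zero] using c0_lt m k l w x) (r + 1) hsz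
    (fun t => cs m k l t w (okey m k l t x) ((Fin.cons y0 y : Fin (r + 1) → Fin 3 → ℕ) t))
    (fun t => cs_lt m k l t w _ _)
  rw [Fin.sum_univ_succ] at h1
  simp only [Fin.cons_zero, Fin.cons_succ, Fin.val_zero, Fin.val_succ, N.Fr, N.LLq] at h1
  calc (c0 m k l w x + cs m k l 0 w (okey m k l 0 x) y0) +
        ∑ u : Fin r, cs m k l (u + 1) w (okey m k l (u + 1) x) (y u)
      = c0 m k l w x + (cs m k l 0 w (okey m k l 0 x) y0 +
        ∑ u : Fin r, cs m k l (u + 1) w (okey m k l (u + 1) x) (y u)) := by ring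
    _ < 2 * (J * D * (Q * LL Q1 r)) := h1
    _ = _ := by ring

/-- the sizes of the lower state -/
theorem size_low {m k l l' r J Q D : ℕ} {Q1 : ℕ → ℕ} (N : SpNum m k l l' r J Q D Q1)
    (hsz' : ∀ u < r, 2 * (FF m k l' u * LL (QQ m k (sL m k l')) u) ≤
      FF m k l' (u + 1) * LL (QQ m k (sL m k l')) (u + 1)) (w : Key → ℕ) (x : JF → ℕ)
    (y : Fin r → Fin 3 → ℕ) :
    c0 m k l' w x + ∑ u : Fin r, cs m k l' u w (okey m k l' u x) (y u) <
      2 * (J * Q * D * LL Q1 r) := by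
  have h1 := tower_size (fun t => FF m k l' t * LL (QQ m k (sL m k l')) t) (c0 m k l' w x)
    (by simpa [LL_zero] using c0_lt m k l' w x) r hsz'
    (fun t => cs m k l' t w (okey m k l' t x) (y t)) (fun t => cs_lt m k l' t w _ _)
  simp only [N.Fr', N.LLq'] at h1
  calc c0 m k l' w x + ∑ u : Fin r, cs m k l' u w (okey m k l' u x) (y u)
      < 2 * (J * D * Q * LL Q1 r) := h1
    _ = _ := by ring

/-- **the label block across SPLIT**, the outer key `o` of the lower state fixed -/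
theorem near_RS_one {m k l l' r J Q D : ℕ} {Q1 : ℕ → ℕ} (hm : 0 < m) (h0 : bb 0 ≤ mL m k l')
    (h : SplitP m k (sL m k l') l' l) (ht : r + 1 ≤ rL m k l)
    (hJ : Jn m k (sL m k l) l' = J) (hQ : QT m k (sL m k l) = Q)
    (hDD : DJ m k l l' (r + 1) = D) (hQ1 : (fun u => QQ m k (sL m k l) (u + 1)) = Q1)
    (N : SpNum m k l l' r J Q D Q1)
    (hc : 60 * (mL m k l - mL m k l') ≤ mL m k l)
    (hpos0 : ∀ f : Fin 3, 0 < aJ m k (sL m k l) l' (Sum.inl f))
    (hsz : ∀ u < r + 1, 2 * (FF m k l u * LL (QQ m k (sL m k l)) u) ≤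
      FF m k l (u + 1) * LL (QQ m k (sL m k l)) (u + 1))
    (hsz' : ∀ u < r, 2 * (FF m k l' u * LL (QQ m k (sL m k l')) u) ≤
      FF m k l' (u + 1) * LL (QQ m k (sL m k l')) (u + 1))
    (w : Key → ℕ) {R : ℕ} (n : ℕ) (o : JF → ℕ)
    (hR : ∀ θ ∈ Theta (pJ k (sL m k l)) (dJ m k l l' (r + 1)), ∀ γ N' Qi : ℕ,
      Q * LL Q1 r * Qi ≡ 1 [MOD D] → ∀ κ₂ < 4,
      cN (Zw m k l (r + 1) w) (ZwO m k l' r o w) (IJ m k l l') (J * (Q * LL Q1 r)) D
        (fun i => Qi * (clJ m k l l' (r + 1) θ i + γ)) κ₂ (J * (Q * LL Q1 r) * N') ≤ R) :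
    ((scaleO (XJ m k l ×ˢ Ys m k l 0)
      (fun q => c0 m k l w q.1 + cs m k l 0 w (okey m k l 0 q.1) q.2) r
      (fun u => Ys m k l (u + 1)) (fun q u y => cs m k l (u + 1) w (okey m k l (u + 1) q.1) y)
      (Zw m k l (r + 1) w) ×ˢ
      scaleO ((XJ m k l').filter (fun x' => okey m k l' r x' = o)) (c0 m k l' w) r (Ys m k l')
        (fun x t y => cs m k l' t w (okey m k l' t x) y) (ZwO m k l' r o w)).filter
          (fun a => a.1 + a.2 = n)).card ≤
      CJ k (sL m k l) * ((CJ k (sL m k l) * CB k * CB k ^ r) * (4 * R)) := by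
  classical
  have hS : sL m k l = sL m k l' + 1 := h.s1
  have hrl : rL m k l = k + 1 := h.rL1
  have hrl' : rL m k l' = k := h.rL'
  have hks := h.ks
  have hll := h.le
  -- the movers
  have hmov : ∀ g : Fin 3, dJ m k l l' (r + 1) (Sum.inl g) ≠ 0 →
      g = Pool.Agent.Helper27.T4.fam (era (mL m k l')) := by
    intro g hg
    by_contra hne
    apply hg
    have hx1 : l' ≤ ef m k l (r + 1) := hll.trans (lt_ez hm _ l).le
    have hw := h.win_ef hm (r + 1)
    have h1 : Pool.Agent.Helper27.T4.fam (era (mL m k l')) =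
        Pool.Agent.Helper48.T5b.gf m (sL m k l') := by
      rw [hw.era_eq hm le_rfl (l1_mono _ hx1)]
      rfl
    rw [h1] at hne
    have h2 := hw.ct_eq hm (f := Sum.inl g) (fun hh => hne (Sum.inl.inj hh))
    show aJ m k (sL m k l) (ef m k l (r + 1)) (Sum.inl g) -
      aJ m k (sL m k l) l' (Sum.inl g) = 0
    rw [Pool.Agent.Helper48.T5b.aJ_inl, Pool.Agent.Helper48.T5b.aJ_inl, h2, Nat.sub_self]
  obtain ⟨Ty, ty, lab, θ, hTyc, hθ, hlab, hCC⟩ := label_core (E' := ef m k l' 0) hm h0 hll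
    N.E' hc hmov hpos0 w n
  rw [hJ, hDD] at hlab
  rw [hJ] at hCC
  -- inverses
  have hcopL : (LL (QQ m k (sL m k l)) (r + 1)).Coprime D := by
    rw [← hDD]
    unfold DJ NN
    exact Nat.Coprime.prod_right (fun i _ => Nat.Coprime.pow_right _
      (coprime_LL_pJ (by omega) (by omega) i))
  rw [N.LLq] at hcopL
  have hcopQ : Q.Coprime D := Nat.Coprime.coprime_mul_right hcopL
  have hcop1 : (LL Q1 r).Coprime D := Nat.Coprime.coprime_mul_left hcopL
  obtain ⟨Qi0, hQi0⟩ := exists_inv_mod N.Dp hcopQ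
  obtain ⟨Qi1, hQi1⟩ := exists_inv_mod N.Dp hcop1
  -- codes of the combined level
  have hdr : ∀ x ∈ (XJ m k l').filter (fun x' => okey m k l' r x' = o),
      drp x ∈ XJG m k (sL m k l) l' := fun x hx => drp_mem hm h (mem_filter.1 hx).1
  have hc' : ∀ x ∈ (XJ m k l').filter (fun x' => okey m k l' r x' = o),
      c0 m k l' w x ≡ c0G m k (sL m k l) (ef m k l' 0) l' w (drp x) [MOD J * D] :=
    fun x _ => (c0_mod_drp hm h w x).of_dvd N.E'd
  have hc0 : ∀ x ∈ XJ m k l, ∀ y ∈ Ys m k l 0, J * D ∣ cs m k l 0 w (okey m k l 0 x) y := by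
    intro x _ y _
    refine (N.Fd 1 (by omega)).trans (dvd_trans (Dvd.intro _ rfl) (dvd_cs m k l 0 w _ y))
  have hcl := comb_lab (Y := Ys m k l 0) (c := c0 m k l w) (c' := c0 m k l' w)
    (c0 := fun x y => cs m k l 0 w (okey m k l 0 x) y) (n := n) (I := IJ m k l l') (Ty := Ty)
    (ty := ty) (lab := lab) (cl := fun τ i => clJ m k l l' (r + 1) (θ τ) i)
    N.Jp N.Dp hQi0 hdr hc' hc0 hlab
  have hg : ∀ x ∈ (XJ m k l').filter (fun x' => okey m k l' r x' = o),
      c0 m k l' w x ≡ gS m k (sL m k l') l' w (fun f => x (Sum.inr f.succ)) [MOD Q] := by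
    intro x _
    have h1 := h.c0_mod_QT hm w x
    rw [← hQ, hS]
    exact h1
  have hcc := comb_count (Y := Ys m k l 0)
    (Z := TT (pz k (sL m k l' + 1)) (zf m k (sL m k l' + 1)))
    (c := c0 m k l w) (c' := c0 m k l' w)
    (c0 := fun x y => cs m k l 0 w (okey m k l 0 x) y) (dr := drp)
    (nw := fun x (f : Fin 3) => x (Sum.inr f.succ))
    (g := gS m k (sL m k l') l' w) (J := J) (D := D) (Q := Q) (n := n)
    (C₁ := CJ k (sL m k l)) (Cd := CB k) hdr hc' hc0 ?_ hg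
    (fun x _ y _ h1 h2 => drp_ext h1 h2) ?_ hCC
  · have hmain := scale_pair_gen_o (XJ m k l ×ˢ Ys m k l 0)
      ((XJ m k l').filter (fun x' => okey m k l' r x' = o))
      (fun q => c0 m k l w q.1 + cs m k l 0 w (okey m k l 0 q.1) q.2) (c0 m k l' w) r
      (fun u => Ys m k l (u + 1)) (Ys m k l')
      (fun q u y => cs m k l (u + 1) w (okey m k l (u + 1) q.1) y)
      (fun x t y => cs m k l' t w (okey m k l' t x) y) Q1 (fun _ => CB k)
      (Zw m k l (r + 1) w) (ZwO m k l' r o w) (m := J * Q) (D₂ := D) (I := IJ m k l l') (R := R)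
      (C₁ := CJ k (sL m k l) * CB k) (n := n) Ty (fun q => ty (q.1.1, drp q.2))
      (fun τ i => Qi0 * (clJ m k l l' (r + 1) (θ τ) i + (D - 1) * ((n / J) % Q)))
      (fun q => lab (q.1.1, drp q.2)) (Nat.mul_pos N.Jp N.Qp) (fun u _ => N.Q1p u) N.Dp hQi1
      ?_ ?_ ?_ ?_ ?_ hcl hcc ?_ ?_ ?_
    · refine hmain.trans ?_
      rw [Finset.prod_const, card_range]
      exact Nat.mul_le_mul_right _ hTyc
    · rintro ⟨x, y0⟩ _ y _
      exact size_up N hsz w x y0 y
    · rintro x _ y _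
      exact size_low N hsz' w x y
    · rintro ⟨x, y0⟩ _ u hu y _
      refine dvd_trans ?_ (dvd_cs m k l (u + 1) w _ y)
      rw [N.LLq]
      have h1 : J * Q * D * LL Q1 u = J * D * (Q * LL Q1 u) := by ring
      rw [h1]
      exact Nat.mul_dvd_mul_right (N.Fd (u + 1 + 1) (by omega)) _
    · rintro x _ u hu y _
      refine dvd_trans ?_ (dvd_cs m k l' u w _ y)
      rw [N.LLq']
      have h1 : J * Q * D * LL Q1 u = J * D * Q * LL Q1 u := by ring
      rw [h1]
      exact Nat.mul_dvd_mul_right (N.Fd' (u + 1) (by omega)) _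
    · rintro ⟨x, y0⟩ _ x' _ u hu
      have h1 := dec_gen hm (l := l) (l' := l') (t := u + 1) (t' := u)
        (show sL m k l' - u = sL m k l - (u + 1) by omega) (by omega) (by omega) w
        (okey m k l (u + 1) x) (okey m k l' u x')
      have h2 : QQ m k (sL m k l) (u + 1) = Q1 u := by rw [← hQ1]
      rw [h2] at h1
      exact h1
    · intro u hu
      have h1 := dvd_Zw hm ht hu
      rw [N.LLq] at h1
      have h2 : J * Q * LL Q1 r = J * (Q * LL Q1 r) := by ring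
      rw [h2]
      exact (Nat.mul_dvd_mul_right N.Jd _).trans h1
    · intro u hu
      have h1 := dvd_ZwO hm (show r ≤ rL m k l' by omega) hu
      rw [N.LLq', N.J0] at h1
      exact h1
    · intro τ _ κ₂ hκ
      have hQQi : Q * LL Q1 r * (Qi1 * Qi0) ≡ 1 [MOD D] := by
        have e1 : Q * LL Q1 r * (Qi1 * Qi0) = (Q * Qi0) * (LL Q1 r * Qi1) := by ring
        rw [e1]
        exact hQi0.mul hQi1
      have h1 := hR (θ τ) (hθ τ) ((D - 1) * ((n / J) % Q) +
        Q * ((D - 1) * (n / (J * Q) % LL Q1 r))) (n / (J * Q) / LL Q1 r) (Qi1 * Qi0) hQQi κ₂ hκ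
      have h2 : J * Q * LL Q1 r = J * (Q * LL Q1 r) := by ring
      rw [h2]
      refine le_trans (le_of_eq (cN_congr (fun i => ?_))) h1
      -- `Qi0 * Q = 1`
      have h3 : ∀ a b z : ℕ, Qi1 * (Qi0 * (a + b) + z) ≡ Qi1 * Qi0 * (a + (b + Q * z)) [MOD D] := by
        intro a b z
        have h4 : Q * Qi0 * (Qi1 * z) ≡ 1 * (Qi1 * z) [MOD D] := hQi0.mul_right _
        have h5 : Qi1 * Qi0 * (a + (b + Q * z)) = Qi1 * (Qi0 * (a + b)) + Q * Qi0 * (Qi1 * z) := by
          ring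
        have h6 : Qi1 * (Qi0 * (a + b) + z) = Qi1 * (Qi0 * (a + b)) + 1 * (Qi1 * z) := by ring
        rw [h5, h6]
        exact Nat.ModEq.add_left _ h4.symm
      exact h3 _ _ _
  · rintro ⟨⟨x, y0⟩, x'⟩ hq
    rw [mem_product, mem_product] at hq
    obtain ⟨⟨_, hy0⟩, hx'⟩ := hq
    have hx1 := (mem_filter.1 hx').1
    unfold XJ at hx1
    rw [Fintype.mem_piFinset] at hx1
    unfold TT
    rw [Fintype.mem_piFinset]
    intro f
    have h1 := hx1 (Sum.inr f.succ)
    have h2 := h.aJ_full hm (le_refl l') (h.le.trans (Nat.le_add_right _ _)) f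
    have h3 := (Fintype.mem_piFinset.1 hy0) f
    have h4 : zf m k (sL m k l' + 1) f ≠ 0 := by
      intro h5
      have h6 := (mem_T1.1 h3).2.2
      have h7 : zf m k (sL m k l - 0) f = 0 := by
        rw [hS]
        exact h5
      rw [h7, pow_zero] at h6
      have h8 := (mem_T1.1 h3).1.two_le
      simp only at h6
      nlinarith
    rw [h2, if_neg h4] at h1
    exact h1
  · intro x _ T
    have h1 := dec_new hm h w (okey m k l 0 x) T
    rw [← hS, hQ] at h1
    rw [← hS]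
    exact h1

end Pool.Agent.Helper44.T5b
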