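import Pool.Agent.Helper44.T5b.LabCore
import Pool.Agent.Helper44.T5b.TowerGen
import Pool.Agent.Helper44.T5b.NearLate
import Pool.Agent.Helper54.T5.Split
import Pool.Agent.Helper48.T5b.EvCrt
import Pool.Agent.Helper83.T5b.LeafDec
import Pool.Agent.Helper39.T5b.InRepS

/-!
# T5b: sets and codes of a pair of states across SPLIT

For `sL m k l = sL m k l' + 1`: the static level `0` of the upper state and
the newborn triple of the lower state become a part of the label level.
-/

set_option autoImplicit false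

namespace Pool.Agent.Helper44.T5b

open Finset
open Pool.Agent.Helper5.ET hiding Key Mk AA Rp keysOf el ext
open Pool.Agent.Helper27.T4
open Pool.Agent.Helper27.T5b hiding FF_pos dvd_cs cs_lt QQ_eq_NN c0_lt Jn_pos
open Pool.Agent.Helper37.T5b
open Pool.Agent.Helper30.T5b hiding pz_prime pz_inj
open Pool.Agent.Helper22.HW Pool.Agent.Helper57.T5
open Pool.Agent.Helper39.T5 Pool.Agent.Helper50.T5
open Pool.Agent.Helper84.T5b Pool.Agent.Helper44.T5
open Pool.Agent.Helper48.T5b (SplitP gS gS_cast cT pJ_inl pJ_buf pJ_new aJ_inl aJ_buf aJ_new)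
open Pool.Agent.Helper45.T5b (OK)
open Pool.Agent.Helper22.NEARs (ZwO)
open Pool.Agent.Helper39.T5b (mem_ZwO unit_win)
open Pool.Agent.Helper83.T5b (CB CB_pos dec_gen dec_cast)

/-! ## the lower state in the numbering of the upper state -/

/-- the joint vector without the newborn triple -/
def drp (x : JF → ℕ) : JF → ℕ :=
  Sum.elim (fun f => x (Sum.inl f)) (Fin.cases (x (Sum.inr 0)) (fun _ => 1))

theorem drp_inl (x : JF → ℕ) (f : Fin 3) : drp x (Sum.inl f) = x (Sum.inl f) := rfl

theorem drp_buf (x : JF → ℕ) : drp x (Sum.inr 0) = x (Sum.inr 0) := rfl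

theorem drp_new (x : JF → ℕ) (f : Fin 3) : drp x (Sum.inr f.succ) = 1 := rfl

theorem ef_win {m k l l' : ℕ} (hm : 0 < m) (h : SplitP m k (sL m k l') l' l) (u : ℕ) :
    l' ≤ ef m k l' u ∧ ef m k l' u ≤ l + SS m (sL m k l' + 1) := by
  refine ⟨(Pool.Agent.Helper48.T5b.lt_ef hm l' u).le, ?_⟩
  have h1 := Pool.Agent.Helper48.T5b.ef_le (k := k) hm l' u
  have h2 := Pool.Agent.Helper48.T5b.ez_le_SS hm (sL m k l') l'
  have h3 := SS_mono m (Nat.le_succ (sL m k l'))
  have h4 := h.le
  simp only [Nat.succ_eq_add_one] at h3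
  omega

theorem drp_mem {m k l l' : ℕ} (hm : 0 < m) (h : SplitP m k (sL m k l') l' l) {x : JF → ℕ}
    (hx : x ∈ XJ m k l') : drp x ∈ XJG m k (sL m k l) l' := by
  unfold XJ at hx
  rw [Fintype.mem_piFinset] at hx
  unfold XJG
  rw [Fintype.mem_piFinset, h.s1]
  rintro (f | i)
  · have h1 := hx (Sum.inl f)
    rw [aJ_inl, pJ_inl] at h1 ⊢
    exact h1
  · refine Fin.cases ?_ (fun f => ?_) i
    · have h1 := hx (Sum.inr 0)
      rw [aJ_buf, pJ_buf] at h1 ⊢
      exact h1
    · have h1 := h.aJ_newborn hm (le_refl l') (h.le.trans (Nat.le_add_right _ _)) f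
      rw [if_pos h1, drp_new]
      exact mem_singleton_self 1

theorem maskJ_drp (m k l' : ℕ) (i : JF) (x : JF → ℕ) :
    maskJ (preJ m k l' i) (drp x) = maskJ (preJ m k l' i) x := by
  refine maskJ_congr (fun g hg => ?_)
  rcases i with f | i
  · have hg' : g ∈ (pre (mL m k l') f).image Sum.inl := hg
    obtain ⟨f', _, rfl⟩ := mem_image.1 hg'
    rfl
  · exact absurd hg (notMem_empty _)

/-- the joint code of the lower state modulo the joint digits of the upper state -/
theorem c0_mod_drp {m k l l' : ℕ} (hm : 0 < m) (h : SplitP m k (sL m k l') l' l) (w : Key → ℕ)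
    (x : JF → ℕ) : c0 m k l' w x ≡ c0G m k (sL m k l) (ef m k l' 0) l' w (drp x)
      [MOD Jn m k (sL m k l) (ef m k l' 0)] := by
  obtain ⟨hx1, hx2⟩ := ef_win hm h 0
  rw [h.s1]
  rw [← ZMod.natCast_eq_natCast_iff, Jn,
    natCast_eq_iff (pJ_prime k (sL m k l' + 1)) (pJ_inj k (sL m k l' + 1))]
  intro i
  have h2 : ((c0G m k (sL m k l' + 1) (ef m k l' 0) l' w (drp x) : ℕ) :
      ZMod (pJ k (sL m k l' + 1) i ^ aJ m k (sL m k l' + 1) (ef m k l' 0) i)) = _ :=
    cv_cast_comp (pJ_prime k _) (pJ_inj k _) _ _ i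
  rw [maskJ_drp] at h2
  have h1 := Pool.Agent.Helper48.T5b.c0_cast m k l' w x i
  revert h1 h2
  rcases i with f | i
  · intro h2 h1
    exact Pool.Agent.Helper48.T5b.cast_eq_of ((pJ_inl k _ f).trans (pJ_inl k _ f).symm)
      ((aJ_inl m k _ _ f).trans (aJ_inl m k _ _ f).symm) h1 h2
  · refine Fin.cases ?_ (fun f => ?_) i
    · intro h2 h1
      exact Pool.Agent.Helper48.T5b.cast_eq_of ((pJ_buf k _).trans (pJ_buf k _).symm)
        ((aJ_buf m k _ _).trans (aJ_buf m k _ _).symm) h1 h2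
    · intro _ _
      rw [h.aJ_newborn hm hx1 hx2 f, pow_zero]
      exact Subsingleton.elim _ _

/-- the joint vector is given by the two parts -/
theorem drp_ext {x y : JF → ℕ} (h1 : drp x = drp y)
    (h2 : (fun f : Fin 3 => x (Sum.inr f.succ)) = fun f => y (Sum.inr f.succ)) : x = y := by
  funext i
  rcases i with f | i
  · exact congrFun h1 (Sum.inl f)
  · refine Fin.cases ?_ (fun f => ?_) i
    · exact congrFun h1 (Sum.inr 0)
    · exact congrFun h2 f

/-- decoding of the static level `0` of the upper state and of the newborn triple -/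
theorem dec_new {m k l l' : ℕ} (hm : 0 < m) (h : SplitP m k (sL m k l') l' l) (w : Key → ℕ)
    (o : JF → ℕ) (T : ℕ) :
    ((Ys m k l 0 ×ˢ TT (pz k (sL m k l' + 1)) (zf m k (sL m k l' + 1))).filter
      (fun q => cs m k l 0 w o q.1 + gS m k (sL m k l') l' w q.2 ≡ T
        [MOD QT m k (sL m k l' + 1)])).card ≤ CB k := by
  have he : sL m k l - 0 = sL m k l' + 1 := by rw [h.s1, Nat.sub_zero]
  have hmask : ∀ (f : Fin 3) (y y' : Fin 3 → ℕ), (∀ g < f, y g = y' g) →
      mask (univ.filter (fun g => g < f)) y = mask (univ.filter (fun g => g < f)) y' := by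
    intro f y y' hy
    exact mask_congr (fun g hg => hy g (mem_filter.1 hg).2)
  have hY : Adm (pz k (sL m k l' + 1)) (zf m k (sL m k l' + 1)) (Ys m k l 0) := by
    have := Pool.Agent.Helper48.T5b.Ys_adm m k l 0
    rw [he] at this
    exact this
  have h0 : 0 < rL m k l := by
    have := h.rL1
    omega
  exact dec_cast k (sL m k l' + 1) (zf m k (sL m k l' + 1)) (cs m k l 0 w o)
    (gS m k (sL m k l') l' w) (Ys m k l 0)
    (TT (pz k (sL m k l' + 1)) (zf m k (sL m k l' + 1)))
    (fun f y => w (Key.S l 0 f o (mask (univ.filter (fun g => g < f)) y)))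
    (fun f _ => w (Key.J l' (Sum.inr f.succ) (fun _ => 0)))
    (fun f y y' hy => by rw [hmask f y y' hy]) (fun f y y' hy => rfl) hY
    (fun y hy i => mem_T1.1 ((Fintype.mem_piFinset.1 hy) i))
    (fun y f => by
      have h1 := Pool.Agent.Helper48.T5b.cs_cast hm h0 w o y f
      rw [he] at h1
      exact h1) (fun y f => gS_cast m k (sL m k l') l' w y f) T

/-! ## the sets -/

/-- the first static level may be moved into the label level -/
theorem scaleO_combine {α β : Type*} [DecidableEq β] (X : Finset α) (c : α → ℕ) (r : ℕ)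
    (Y : ℕ → Finset β) (cc : α → ℕ → β → ℕ) (U : Finset ℕ) :
    scaleO X c (r + 1) Y cc U ⊆
      scaleO (X ×ˢ Y 0) (fun q => c q.1 + cc q.1 0 q.2) r (fun t => Y (t + 1))
        (fun q t => cc q.1 (t + 1)) U := by
  intro a ha
  simp only [scaleO, mem_image, mem_product, Fintype.mem_piFinset] at ha ⊢
  obtain ⟨⟨⟨x, y⟩, u⟩, ⟨⟨hx, hy⟩, hu⟩, rfl⟩ := ha
  refine ⟨(((x, y 0), fun t => y t.succ), u), ⟨⟨⟨hx, ?_⟩, ?_⟩, hu⟩, ?_⟩
  · simpa using hy 0
  · intro t
    simpa using hy t.succ
  · simp only [Fin.sum_univ_succ, Fin.val_zero, Fin.val_succ]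
    ring

/-- the elements of a state, seen from the front number `s`, the outer key being given -/
theorem AA_splitO {m k l s : ℕ} {w : Key → ℕ} (hm : 0 < m) (hs : s ≤ rL m k l) {a : ℕ}
    (ha : a ∈ AA m k l w) : ∃ x ∈ XJ m k l,
      (∃ z, a = c0 m k l w x + Jn m k (sL m k l) l * z) ∧
      a ∈ scaleO ((XJ m k l).filter (fun x' => okey m k l s x' = okey m k l s x))
        (c0 m k l w) s (Ys m k l) (fun x t y => cs m k l t w (okey m k l t x) y)
        (ZwO m k l s (okey m k l s x) w) := by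
  unfold AA at ha
  rw [mem_image] at ha
  obtain ⟨⟨⟨x, y⟩, u⟩, hq, rfl⟩ := ha
  simp only [mem_product, Fintype.mem_piFinset, mem_image] at hq
  obtain ⟨⟨hx, hy⟩, v, hv, rfl⟩ := hq
  set Y : ℕ → Fin 3 → ℕ := fun t => if h : t < rL m k l then y ⟨t, h⟩ else 0 with hY
  have hYt : ∀ t : Fin (rL m k l), Y t = y t := by
    intro t
    simp [hY]
  have h1 : ∑ t : Fin (rL m k l), cs m k l t w (okey m k l t x) (y t) =
      ∑ t ∈ range (rL m k l), cs m k l t w (okey m k l t x) (Y t) := by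
    rw [← Fin.sum_univ_eq_sum_range (fun t => cs m k l t w (okey m k l t x) (Y t))]
    exact Finset.sum_congr rfl (fun t _ => by rw [hYt])
  refine ⟨x, hx, ?_, ?_⟩
  · have h2 : Jn m k (sL m k l) l ∣
        ∑ t ∈ range (rL m k l), cs m k l t w (okey m k l t x) (Y t) + Un m k l * v := by
      refine dvd_add (Finset.dvd_sum (fun t _ => ?_)) ?_
      · exact ((Jn_dvd_FF hm k l (t + 1)).trans (Dvd.intro _ rfl)).trans (dvd_cs m k l t w _ (Y t))
      · refine Dvd.dvd.mul_right ?_ _
        unfold Un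
        exact Dvd.intro _ rfl
    obtain ⟨z, hz⟩ := h2
    refine ⟨z, ?_⟩
    unfold el
    rw [h1, ← hz]
    ring
  · unfold scaleO
    rw [mem_image]
    refine ⟨((x, fun t : Fin s => Y t),
      ∑ t ∈ Ico s (rL m k l), cs m k l t w (if t = 0 then okey m k l s x else 0) (Y t) +
        Un m k l * v), ?_, ?_⟩
    · simp only [mem_product, Fintype.mem_piFinset]
      refine ⟨⟨mem_filter.2 ⟨hx, rfl⟩, fun t => ?_⟩,
        mem_ZwO.2 ⟨Y, fun t _ h2 => ?_, v, hv, rfl⟩⟩
      · have h2 : (t : ℕ) < rL m k l := by have := t.2; omega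
        have := hy ⟨t, h2⟩
        rw [← hYt] at this
        exact this
      · have := hy ⟨t, h2⟩
        rw [← hYt] at this
        exact this
    · simp only
      unfold el
      have h2 : ∑ t : Fin s, cs m k l t w (okey m k l t x) (Y t) =
          ∑ t ∈ range s, cs m k l t w (okey m k l t x) (Y t) :=
        Fin.sum_univ_eq_sum_range (fun t => cs m k l t w (okey m k l t x) (Y t)) s
      have h3 : ∑ t ∈ Ico s (rL m k l),
          cs m k l t w (if t = 0 then okey m k l s x else 0) (Y t) =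
          ∑ t ∈ Ico s (rL m k l), cs m k l t w (okey m k l t x) (Y t) := by
        refine Finset.sum_congr rfl (fun t ht => ?_)
        rw [mem_Ico] at ht
        split_ifs with h4
        · rw [show s = t by omega]
        · rw [okey_pos h4]
      rw [h1, h2, h3, ← Finset.sum_range_add_sum_Ico _ hs]
      ring

theorem dvd_ZwO {m k l s : ℕ} {w : Key → ℕ} {o : JF → ℕ} (hm : 0 < m) (hs : s ≤ rL m k l) {u : ℕ}
    (hu : u ∈ ZwO m k l s o w) : Jn m k (sL m k l) l * LL (QQ m k (sL m k l)) s ∣ u := by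
  obtain ⟨y, hy, v, hv, rfl⟩ := mem_ZwO.1 hu
  refine dvd_add (Finset.dvd_sum (fun t ht => ?_)) ?_
  · rw [mem_Ico] at ht
    refine dvd_trans ?_ (dvd_cs m k l t w _ (y t))
    exact Nat.mul_dvd_mul (Jn_dvd_FF hm k l (t + 1)) (LL_dvd _ ht.1)
  · refine Dvd.dvd.mul_right ?_ _
    unfold Un
    exact Nat.mul_dvd_mul_left _ (LL_dvd _ hs)

theorem cN_congr {U U' : Finset ℕ} {I m D κ n : ℕ} {cl cl' : ℕ → ℕ}
    (h : ∀ i, cl i ≡ cl' i [MOD D]) : cN U U' I m D cl κ n = cN U U' I m D cl' κ n := by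
  unfold cN
  congr 1
  refine Finset.filter_congr (fun t _ => ?_)
  have h1 : cl t.1 % D = cl' t.1 % D := h t.1
  rw [h1]

end Pool.Agent.Helper44.T5b
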